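import Mathlib

set_option autoImplicit false
set_option linter.unusedSectionVars false

namespace Pool.Agent.LibStrong

open Finset

variable {C : Type} [Fintype C] [DecidableEq C]

/-- sign of a Boolean -/
def sg (b : Bool) : ℝ := if b then 1 else -1

lemma sg_sq (b : Bool) : sg b ^ 2 = 1 := by cases b <;> simp [sg]
lemma sg_not (b : Bool) : sg (!b) = - sg b := by cases b <;> simp [sg]
lemma abs_sg (b : Bool) : |sg b| = 1 := by cases b <;> simp [sg]

/-- flip the coordinate `a` -/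
def flipAt (a : C) (ω : C → Bool) : C → Bool := Function.update ω a (!(ω a))

lemma flipAt_invol (a : C) : Function.Involutive (flipAt a) := by
  intro ω
  funext b
  by_cases h : b = a
  · subst h; simp [flipAt]
  · simp [flipAt, h]

lemma flipAt_same (a : C) (ω : C → Bool) : flipAt a ω a = !(ω a) := by simp [flipAt]

lemma flipAt_ne {a b : C} (h : b ≠ a) (ω : C → Bool) : flipAt a ω b = ω b := by
  simp [flipAt, h]

lemma sum_flip (a : C) (F : (C → Bool) → ℝ) : ∑ ω, F (flipAt a ω) = ∑ ω, F ω :=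
  Fintype.sum_equiv (flipAt_invol a).toPerm _ _ (fun _ => rfl)

lemma sum_sg_mul_eq_zero (a : C) (F : (C → Bool) → ℝ) (hF : ∀ ω, F (flipAt a ω) = F ω) :
    ∑ ω : C → Bool, sg (ω a) * F ω = 0 := by
  have h := sum_flip a (fun ω => sg (ω a) * F ω)
  simp only [hF, flipAt_same, sg_not, neg_mul, sum_neg_distrib] at h
  linarith

/-- the number of sign vectors, as a real number -/
noncomputable def NN (C : Type) [Fintype C] [DecidableEq C] : ℝ := (Fintype.card (C → Bool) : ℝ)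

lemma NN_pos : 0 < NN C := by
  unfold NN
  exact_mod_cast Fintype.card_pos

lemma sum_const_NN (x : ℝ) : ∑ _ω : C → Bool, x = NN C * x := by
  simp [NN]

/-- linear form -/
noncomputable def lin (v : C → ℝ) (A : Finset C) (ω : C → Bool) : ℝ := ∑ a ∈ A, v a * sg (ω a)

lemma lin_flip {a : C} {A : Finset C} (h : a ∉ A) (v : C → ℝ) (ω : C → Bool) :
    lin v A (flipAt a ω) = lin v A ω := by
  unfold lin
  apply Finset.sum_congr rfl
  intro b hb
  rw [flipAt_ne]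
  rintro rfl
  exact h hb

lemma second_moment (v : C → ℝ) (A : Finset C) :
    ∑ ω, (lin v A ω) ^ 2 = NN C * ∑ a ∈ A, v a ^ 2 := by
  induction A using Finset.induction_on with
  | empty => simp [lin]
  | insert a A ha ih =>
    have h1 : ∀ ω, (lin v (insert a A) ω) ^ 2
        = (lin v A ω) ^ 2 + 2 * v a * (sg (ω a) * lin v A ω) + v a ^ 2 := by
      intro ω
      have h2 : lin v (insert a A) ω = v a * sg (ω a) + lin v A ω := by
        unfold lin
        rw [Finset.sum_insert ha]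
      have h3 := sg_sq (ω a)
      rw [h2]
      linear_combination (v a ^ 2) * h3
    simp only [h1, sum_add_distrib, ← mul_sum]
    rw [sum_sg_mul_eq_zero a _ (lin_flip ha v), ih, sum_const_NN, Finset.sum_insert ha]
    ring

lemma fourth_moment (v : C → ℝ) (A : Finset C) :
    ∑ ω, (lin v A ω) ^ 4 ≤ 3 * NN C * (∑ a ∈ A, v a ^ 2) ^ 2 := by
  induction A using Finset.induction_on with
  | empty => simp [lin]
  | insert a A ha ih =>
    have h1 : ∀ ω, (lin v (insert a A) ω) ^ 4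
        = (lin v A ω) ^ 4 + 4 * v a * (sg (ω a) * (lin v A ω) ^ 3)
          + 6 * v a ^ 2 * (lin v A ω) ^ 2 + 4 * v a ^ 3 * (sg (ω a) * lin v A ω) + v a ^ 4 := by
      intro ω
      have h2 : lin v (insert a A) ω = v a * sg (ω a) + lin v A ω := by
        unfold lin
        rw [Finset.sum_insert ha]
      have h3 := sg_sq (ω a)
      rw [h2]
      linear_combination (v a ^ 4 * (sg (ω a) ^ 2 + 1) + 4 * v a ^ 3 * sg (ω a) * lin v A ω
        + 6 * v a ^ 2 * (lin v A ω) ^ 2) * h3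
    simp only [h1, sum_add_distrib, ← mul_sum]
    rw [sum_sg_mul_eq_zero a _ (lin_flip ha v),
      sum_sg_mul_eq_zero a (fun ω => (lin v A ω) ^ 3) (fun ω => by rw [lin_flip ha v]),
      second_moment, sum_const_NN, Finset.sum_insert ha]
    have hN := NN_pos (C := C)
    have hQ : 0 ≤ ∑ a ∈ A, v a ^ 2 := Finset.sum_nonneg (fun _ _ => sq_nonneg _)
    have hv : 0 ≤ NN C * (v a ^ 2) ^ 2 := by positivity
    nlinarith [ih, hv]

lemma sum_sq_nonneg' (v : C → ℝ) : 0 ≤ ∑ a, v a ^ 2 := Finset.sum_nonneg (fun _ _ => sq_nonneg _)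

lemma pointwise_ineq (x σ : ℝ) (hσ : 0 ≤ σ) :
    6 * σ ^ 2 * x ^ 2 - x ^ 4 ≤ 6 * σ ^ 3 * |x| := by
  have hx : 0 ≤ |x| := abs_nonneg x
  rw [← sq_abs x, show x ^ 4 = |x| ^ 4 by rw [← abs_pow, abs_of_nonneg (by positivity)]]
  set u := |x| with hu
  have h1 : 0 ≤ 6 * σ ^ 3 - 6 * σ ^ 2 * u + u ^ 3 := by
    have e : 6 * σ ^ 3 - 6 * σ ^ 2 * u + u ^ 3
        = (u - 71/50 * σ) ^ 2 * (u + 71/25 * σ) + (123/2500) * σ ^ 2 * u + (17089/62500) * σ ^ 3 := by
      ring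
    rw [e]
    positivity
  nlinarith [mul_nonneg hx h1]

/-- Khintchine inequality with constant one half. -/
lemma khintchine (v : C → ℝ) :
    NN C * Real.sqrt (∑ a, v a ^ 2) / 2 ≤ ∑ ω : C → Bool, |∑ a, v a * sg (ω a)| := by
  set Q := ∑ a, v a ^ 2 with hQ
  have hQ0 : 0 ≤ Q := sum_sq_nonneg' v
  set σ := Real.sqrt Q with hσ
  have hσ0 : 0 ≤ σ := Real.sqrt_nonneg _
  have hσ2 : σ ^ 2 = Q := Real.sq_sqrt hQ0
  have h2 := second_moment v univ
  have h4 := fourth_moment v univ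
  have hlin : ∀ ω : C → Bool, ∑ a, v a * sg (ω a) = lin v univ ω := fun ω => rfl
  simp only [hlin]
  rcases eq_or_lt_of_le hσ0 with h0 | hpos
  · rw [← h0]
    simp only [mul_zero, zero_div]
    exact Finset.sum_nonneg (fun _ _ => abs_nonneg _)
  have hs : ∑ ω, (6 * σ ^ 2 * (lin v univ ω) ^ 2 - (lin v univ ω) ^ 4)
      ≤ ∑ ω, 6 * σ ^ 3 * |lin v univ ω| :=
    Finset.sum_le_sum (fun ω _ => pointwise_ineq _ _ hσ0)
  rw [sum_sub_distrib, ← mul_sum, ← mul_sum, h2] at hs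
  rw [← hQ] at hs h4
  rw [← hσ2] at hs h4
  have h5 : 3 * NN C * σ ^ 4 ≤ 6 * σ ^ 3 * ∑ ω, |lin v univ ω| := by nlinarith
  have hσ3 : 0 < 6 * σ ^ 3 := by positivity
  have h6 : 6 * σ ^ 3 * (NN C * σ / 2) ≤ 6 * σ ^ 3 * ∑ ω, |lin v univ ω| := by
    calc 6 * σ ^ 3 * (NN C * σ / 2) = 3 * NN C * σ ^ 4 := by ring
      _ ≤ _ := h5
  exact le_of_mul_le_mul_left h6 hσ3

/-- second moment of a decoupled bilinear form -/
lemma bilin_second (W : C → C → ℝ) :
    ∑ ω₁ : C → Bool, ∑ ω₂ : C → Bool, (∑ c, (∑ b, W b c * sg (ω₁ b)) * sg (ω₂ c)) ^ 2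
      = NN C ^ 2 * ∑ c, ∑ b, W b c ^ 2 := by
  have h1 : ∀ ω₁ : C → Bool, ∑ ω₂ : C → Bool, (∑ c, (∑ b, W b c * sg (ω₁ b)) * sg (ω₂ c)) ^ 2
      = NN C * ∑ c, (∑ b, W b c * sg (ω₁ b)) ^ 2 := by
    intro ω₁
    exact second_moment (fun c => ∑ b, W b c * sg (ω₁ b)) univ
  simp only [h1]
  rw [← mul_sum, Finset.sum_comm]
  have h2 : ∀ c, ∑ ω₁ : C → Bool, (∑ b, W b c * sg (ω₁ b)) ^ 2 = NN C * ∑ b, W b c ^ 2 := by
    intro c
    exact second_moment (fun b => W b c) univ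
  simp only [h2]
  rw [← mul_sum]
  ring

/-- Khintchine for a decoupled bilinear form, constant one quarter -/
lemma bilin_khintchine (W : C → C → ℝ) :
    NN C ^ 2 * Real.sqrt (∑ c, ∑ b, W b c ^ 2) / 4
      ≤ ∑ ω₁ : C → Bool, ∑ ω₂ : C → Bool, |∑ c, (∑ b, W b c * sg (ω₁ b)) * sg (ω₂ c)| := by
  set q : C → ℝ := fun c => ∑ b, W b c ^ 2 with hq
  have hq0 : ∀ c, 0 ≤ q c := fun c => Finset.sum_nonneg (fun _ _ => sq_nonneg _)
  set Q := ∑ c, q c with hQ
  have hQ0 : 0 ≤ Q := Finset.sum_nonneg (fun c _ => hq0 c)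
  have hN := NN_pos (C := C)
  -- inner step
  have h1 : ∀ ω₁ : C → Bool, NN C * Real.sqrt (∑ c, (∑ b, W b c * sg (ω₁ b)) ^ 2) / 2
      ≤ ∑ ω₂ : C → Bool, |∑ c, (∑ b, W b c * sg (ω₁ b)) * sg (ω₂ c)| := by
    intro ω₁
    exact khintchine (fun c => ∑ b, W b c * sg (ω₁ b))
  -- outer step
  have h2 : ∀ ω₁ : C → Bool, ∑ c, Real.sqrt (q c) * |∑ b, W b c * sg (ω₁ b)|
      ≤ Real.sqrt Q * Real.sqrt (∑ c, (∑ b, W b c * sg (ω₁ b)) ^ 2) := by
    intro ω₁
    have h := Real.sum_mul_le_sqrt_mul_sqrt univ (fun c => Real.sqrt (q c))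
      (fun c => |∑ b, W b c * sg (ω₁ b)|)
    simp only [sq_abs] at h
    have h' : ∑ c, Real.sqrt (q c) ^ 2 = Q := by
      rw [hQ]
      exact Finset.sum_congr rfl (fun c _ => Real.sq_sqrt (hq0 c))
    rw [h'] at h
    exact h
  have h3 : NN C * Q / 2 ≤ ∑ ω₁ : C → Bool, ∑ c, Real.sqrt (q c) * |∑ b, W b c * sg (ω₁ b)| := by
    rw [Finset.sum_comm]
    have h4 : ∀ c, NN C * q c / 2 ≤ ∑ ω₁ : C → Bool, Real.sqrt (q c) * |∑ b, W b c * sg (ω₁ b)| := by
      intro c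
      rw [← mul_sum]
      have h5 := khintchine (fun b => W b c)
      have h6 : Real.sqrt (q c) * (NN C * Real.sqrt (q c) / 2) = NN C * q c / 2 := by
        have := Real.mul_self_sqrt (hq0 c)
        calc Real.sqrt (q c) * (NN C * Real.sqrt (q c) / 2)
            = NN C * (Real.sqrt (q c) * Real.sqrt (q c)) / 2 := by ring
          _ = _ := by rw [this]
      rw [← h6]
      exact mul_le_mul_of_nonneg_left h5 (Real.sqrt_nonneg _)
    calc NN C * Q / 2 = ∑ c, NN C * q c / 2 := by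
          rw [hQ, mul_sum, Finset.sum_div]
      _ ≤ _ := Finset.sum_le_sum (fun c _ => h4 c)
  have h7 : NN C * Q / 2 ≤ Real.sqrt Q * ∑ ω₁ : C → Bool,
      Real.sqrt (∑ c, (∑ b, W b c * sg (ω₁ b)) ^ 2) := by
    have h71 := h3.trans (Finset.sum_le_sum (fun ω _ => h2 ω))
    rwa [← mul_sum] at h71
  have h8 : NN C * (∑ ω₁ : C → Bool, Real.sqrt (∑ c, (∑ b, W b c * sg (ω₁ b)) ^ 2)) / 2
      ≤ ∑ ω₁ : C → Bool, ∑ ω₂ : C → Bool, |∑ c, (∑ b, W b c * sg (ω₁ b)) * sg (ω₂ c)| := by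
    rw [mul_sum, Finset.sum_div]
    exact Finset.sum_le_sum (fun ω _ => h1 ω)
  refine le_trans ?_ h8
  rcases eq_or_lt_of_le (Real.sqrt_nonneg Q) with h0 | hpos
  · rw [← h0]
    have : 0 ≤ ∑ ω₁ : C → Bool, Real.sqrt (∑ c, (∑ b, W b c * sg (ω₁ b)) ^ 2) :=
      Finset.sum_nonneg (fun _ _ => Real.sqrt_nonneg _)
    have h9 := mul_nonneg hN.le this
    linarith
  · have hQs : Real.sqrt Q * Real.sqrt Q = Q := Real.mul_self_sqrt hQ0
    have h10 : NN C * Real.sqrt Q / 2 ≤ ∑ ω₁ : C → Bool,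
        Real.sqrt (∑ c, (∑ b, W b c * sg (ω₁ b)) ^ 2) := by
      apply le_of_mul_le_mul_left _ hpos
      calc Real.sqrt Q * (NN C * Real.sqrt Q / 2) = NN C * (Real.sqrt Q * Real.sqrt Q) / 2 := by ring
        _ = NN C * Q / 2 := by rw [hQs]
        _ ≤ _ := h7
    have h11 := mul_le_mul_of_nonneg_left h10 hN.le
    calc NN C ^ 2 * Real.sqrt Q / 4 = NN C * (NN C * Real.sqrt Q / 2) / 2 := by ring
      _ ≤ _ := by linarith

/-- upper bound for the first moment of a bilinear form -/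
lemma bilin_first_le (W : C → C → ℝ) (M : ℝ) (hM : 0 ≤ M) (hW : ∑ c, ∑ b, W b c ^ 2 ≤ M ^ 2) :
    ∑ ω₁ : C → Bool, ∑ ω₂ : C → Bool, |∑ c, (∑ b, W b c * sg (ω₁ b)) * sg (ω₂ c)|
      ≤ NN C ^ 2 * M := by
  have h := bilin_second W
  have hN := NN_pos (C := C)
  -- use |x| ≤ (x^2/M + M)/2
  rcases eq_or_lt_of_le hM with h0 | hpos
  · -- all zero
    rw [← h0] at hW
    have hz : ∑ c, ∑ b, W b c ^ 2 = 0 := le_antisymm (by simpa using hW)
      (Finset.sum_nonneg (fun _ _ => Finset.sum_nonneg (fun _ _ => sq_nonneg _)))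
    rw [hz, mul_zero] at h
    have h1 : ∀ ω₁ ∈ (univ : Finset (C → Bool)), ∑ ω₂ : C → Bool,
        (∑ c, (∑ b, W b c * sg (ω₁ b)) * sg (ω₂ c)) ^ 2 = 0 :=
      (Finset.sum_eq_zero_iff_of_nonneg (fun _ _ => Finset.sum_nonneg (fun _ _ => sq_nonneg _))).1 h
    have h2 : ∀ ω₁ ω₂ : C → Bool, (∑ c, (∑ b, W b c * sg (ω₁ b)) * sg (ω₂ c)) = 0 := by
      intro ω₁ ω₂
      have h3 := (Finset.sum_eq_zero_iff_of_nonneg (fun _ _ => sq_nonneg _)).1
        (h1 ω₁ (mem_univ _)) ω₂ (mem_univ _)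
      exact pow_eq_zero_iff (two_ne_zero) |>.1 h3
    simp [h2, ← h0]
  · have hp : ∀ x : ℝ, |x| ≤ (x ^ 2 / M + M) / 2 := by
      intro x
      have h1 : 0 ≤ (|x| - M) ^ 2 := sq_nonneg _
      have h2 : |x| ^ 2 = x ^ 2 := sq_abs x
      rw [le_div_iff₀ (by norm_num : (0:ℝ) < 2), ← sub_nonneg]
      have h3 : x ^ 2 / M + M - |x| * 2 = (|x| - M) ^ 2 / M := by
        field_simp
        nlinarith
      rw [h3]
      positivity
    calc ∑ ω₁ : C → Bool, ∑ ω₂ : C → Bool, |∑ c, (∑ b, W b c * sg (ω₁ b)) * sg (ω₂ c)|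
        ≤ ∑ ω₁ : C → Bool, ∑ ω₂ : C → Bool,
            ((∑ c, (∑ b, W b c * sg (ω₁ b)) * sg (ω₂ c)) ^ 2 / M + M) / 2 :=
          Finset.sum_le_sum (fun _ _ => Finset.sum_le_sum (fun _ _ => hp _))
      _ = ((∑ ω₁ : C → Bool, ∑ ω₂ : C → Bool,
            (∑ c, (∑ b, W b c * sg (ω₁ b)) * sg (ω₂ c)) ^ 2) / M + NN C ^ 2 * M) / 2 := by
          simp only [← Finset.sum_div, sum_add_distrib, sum_const_NN]
          ring
      _ = (NN C ^ 2 * (∑ c, ∑ b, W b c ^ 2) / M + NN C ^ 2 * M) / 2 := by rw [h]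
      _ ≤ (NN C ^ 2 * M ^ 2 / M + NN C ^ 2 * M) / 2 := by
          have : NN C ^ 2 * (∑ c, ∑ b, W b c ^ 2) / M ≤ NN C ^ 2 * M ^ 2 / M := by
            apply div_le_div_of_nonneg_right _ hpos.le
            exact mul_le_mul_of_nonneg_left hW (by positivity)
          linarith
      _ = NN C ^ 2 * M := by
          field_simp
          ring

end Pool.Agent.LibStrong
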