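import Mathlib
import Pool.Agent.LibStrong.Khintchine

set_option autoImplicit false
set_option linter.unusedSectionVars false

namespace Pool.Agent.LibStrong

open Finset

variable {C : Type} [Fintype C] [DecidableEq C]

/-- the quadratic form `TT a` -/
def TT (S : C → C → C → ℝ) (a : C) (y z : C → ℝ) : ℝ := ∑ b, ∑ c, S a b c * y b * z c

/-- the trilinear form -/
def T3 (S : C → C → C → ℝ) (x y z : C → ℝ) : ℝ := ∑ a, x a * TT S a y z

/-- unit vector -/
def ev (a : C) : C → ℝ := fun b => if b = a then 1 else 0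

lemma ev_same (a : C) : ev a a = 1 := by simp [ev]
lemma ev_ne {a b : C} (h : b ≠ a) : ev a b = 0 := by simp [ev, h]

lemma TT_add_left (S : C → C → C → ℝ) (a : C) (y y' z : C → ℝ) :
    TT S a (y + y') z = TT S a y z + TT S a y' z := by
  unfold TT
  rw [← sum_add_distrib]
  refine Finset.sum_congr rfl (fun b _ => ?_)
  rw [← sum_add_distrib]
  refine Finset.sum_congr rfl (fun c _ => ?_)
  simp only [Pi.add_apply]
  ring

lemma TT_smul_left (S : C → C → C → ℝ) (a : C) (h : ℝ) (y z : C → ℝ) :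
    TT S a (h • y) z = h * TT S a y z := by
  unfold TT
  rw [mul_sum]
  refine Finset.sum_congr rfl (fun b _ => ?_)
  rw [mul_sum]
  refine Finset.sum_congr rfl (fun c _ => ?_)
  simp only [Pi.smul_apply, smul_eq_mul]
  ring

lemma TT_swap (S : C → C → C → ℝ) (h2 : ∀ a b c, S a b c = S a c b) (a : C) (y z : C → ℝ) :
    TT S a y z = TT S a z y := by
  unfold TT
  rw [Finset.sum_comm]
  refine Finset.sum_congr rfl (fun b _ => ?_)
  refine Finset.sum_congr rfl (fun c _ => ?_)
  rw [h2]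
  ring

lemma T3_add (S : C → C → C → ℝ) (x x' y z : C → ℝ) :
    T3 S (x + x') y z = T3 S x y z + T3 S x' y z := by
  unfold T3
  rw [← sum_add_distrib]
  refine Finset.sum_congr rfl (fun b _ => ?_)
  simp only [Pi.add_apply]
  ring

lemma T3_smul (S : C → C → C → ℝ) (h : ℝ) (x y z : C → ℝ) :
    T3 S (h • x) y z = h * T3 S x y z := by
  unfold T3
  rw [mul_sum]
  refine Finset.sum_congr rfl (fun b _ => ?_)
  simp only [Pi.smul_apply, smul_eq_mul]
  ring

lemma T3_swap23 (S : C → C → C → ℝ) (h2 : ∀ a b c, S a b c = S a c b) (x y z : C → ℝ) :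
    T3 S x y z = T3 S x z y := by
  unfold T3
  refine Finset.sum_congr rfl (fun b _ => ?_)
  rw [TT_swap S h2]

lemma T3_swap12 (S : C → C → C → ℝ) (h1 : ∀ a b c, S a b c = S b a c) (x y z : C → ℝ) :
    T3 S x y z = T3 S y x z := by
  unfold T3 TT
  simp only [mul_sum]
  rw [Finset.sum_comm]
  refine Finset.sum_congr rfl (fun b _ => ?_)
  refine Finset.sum_congr rfl (fun a _ => ?_)
  refine Finset.sum_congr rfl (fun c _ => ?_)
  rw [h1]
  ring

section sym
variable (S : C → C → C → ℝ) (h1 : ∀ a b c, S a b c = S b a c) (h2 : ∀ a b c, S a b c = S a c b)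

include h1 h2 in
lemma T3_add2 (x y y' z : C → ℝ) :
    T3 S x (y + y') z = T3 S x y z + T3 S x y' z := by
  rw [T3_swap12 S h1, T3_add, T3_swap12 S h1, T3_swap12 S h1 y']

include h1 h2 in
lemma T3_add3 (x y z z' : C → ℝ) :
    T3 S x y (z + z') = T3 S x y z + T3 S x y z' := by
  rw [T3_swap23 S h2, T3_add2 S h1 h2, T3_swap23 S h2, T3_swap23 S h2 x z']

include h1 h2 in
lemma T3_smul2 (h : ℝ) (x y z : C → ℝ) : T3 S x (h • y) z = h * T3 S x y z := by
  rw [T3_swap12 S h1, T3_smul, T3_swap12 S h1]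

include h1 h2 in
lemma T3_smul3 (h : ℝ) (x y z : C → ℝ) : T3 S x y (h • z) = h * T3 S x y z := by
  rw [T3_swap23 S h2, T3_smul2 S h1 h2, T3_swap23 S h2]

include h1 h2 in
lemma T3_cube (u v : C → ℝ) : T3 S (u + v) (u + v) (u + v)
    = T3 S u u u + 3 * T3 S v u u + 3 * T3 S v v u + T3 S v v v := by
  simp only [T3_add, T3_add2 S h1 h2, T3_add3 S h1 h2]
  have e1 : T3 S u v u = T3 S v u u := T3_swap12 S h1 _ _ _
  have e2 : T3 S u u v = T3 S v u u := by rw [T3_swap23 S h2, e1]
  have e3 : T3 S v u v = T3 S v v u := T3_swap23 S h2 _ _ _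
  have e4 : T3 S u v v = T3 S v v u := by rw [T3_swap12 S h1, e3]
  rw [e1, e2, e3, e4]
  ring

/-- the cubic function -/
noncomputable def Psi (S : C → C → C → ℝ) (l : C → ℝ) (x : C → ℝ) : ℝ :=
  ∑ a, l a * x a - (1/12) * T3 S x x x

/-- its gradient -/
noncomputable def GG (S : C → C → C → ℝ) (l : C → ℝ) (r : C → ℝ) (a : C) : ℝ :=
  l a - (1/4) * TT S a r r

lemma sum_mul_GG (l : C → ℝ) (r w : C → ℝ) :
    ∑ a, w a * GG S l r a = ∑ a, l a * w a - (1/4) * T3 S w r r := by
  unfold GG T3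
  rw [mul_sum, ← sum_sub_distrib]
  refine Finset.sum_congr rfl (fun b _ => ?_)
  ring

include h1 h2 in
/-- odd part of `Psi` around `r` in direction `w` -/
lemma Psi_odd (l : C → ℝ) (r w : C → ℝ) (e : ℝ) :
    Psi S l (r + e • w) + Psi S l (-r + e • w)
      = 2 * e * ∑ a, w a * GG S l r a - (e ^ 3 / 6) * T3 S w w w := by
  rw [sum_mul_GG]
  unfold Psi
  rw [T3_cube S h1 h2, T3_cube S h1 h2]
  have hneg : (-r : C → ℝ) = (-1 : ℝ) • r := by simp
  rw [hneg]
  simp only [T3_smul, T3_smul2 S h1 h2, T3_smul3 S h1 h2]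
  have e5 : ∑ a, l a * (r + e • w) a + ∑ a, l a * ((-1 : ℝ) • r + e • w) a
      = 2 * e * ∑ a, l a * w a := by
    rw [← sum_add_distrib, mul_sum]
    refine Finset.sum_congr rfl (fun b _ => ?_)
    simp only [Pi.add_apply, Pi.smul_apply, smul_eq_mul]
    ring
  linear_combination e5

include h1 h2 in
/-- changing one coordinate -/
lemma Psi_update (hd : ∀ a c, S a a c = 0) (l : C → ℝ) (y : C → ℝ) (a : C) (h : ℝ) :
    Psi S l (y + h • ev a) = Psi S l y + h * GG S l y a := by
  unfold Psi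
  rw [T3_cube S h1 h2]
  simp only [T3_smul, T3_smul2 S h1 h2, T3_smul3 S h1 h2]
  have k1 : ∀ y z, T3 S (ev a) y z = TT S a y z := by
    intro y z
    unfold T3 ev
    simp
  have k2 : ∀ z, TT S a (ev a) z = 0 := by
    intro z
    unfold TT
    apply Finset.sum_eq_zero
    intro b _
    apply Finset.sum_eq_zero
    intro c _
    by_cases hb : b = a
    · subst hb; simp [hd]
    · simp [ev, hb]
  rw [k1, k1, k1, k2, k2]
  have e5 : ∑ b, l b * (y + h • ev a) b = ∑ b, l b * y b + h * l a := by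
    have : ∀ b, l b * (y + h • ev a) b = l b * y b + h * (l b * ev a b) := by
      intro b
      simp only [Pi.add_apply, Pi.smul_apply, smul_eq_mul]
      ring
    simp only [this, sum_add_distrib, ← mul_sum]
    congr 2
    simp [ev]
  rw [e5]
  unfold GG
  ring

include h1 h2 in
/-- Rounding lemma. -/
lemma rounding (hd : ∀ a c, S a a c = 0) (l : C → ℝ) (β B : ℝ) (hβ : 0 ≤ β)
    (hB : ∀ x : C → ℝ, (∀ a, x a = 1 ∨ x a = -1) → Psi S l x - β * (∑ a, x a) ^ 2 ≤ B)
    (A : Finset C) : ∀ y : C → ℝ, (∀ a, |y a| ≤ 1) → (∀ a, a ∉ A → (y a = 1 ∨ y a = -1)) →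
      Psi S l y - β * (∑ a, y a) ^ 2 ≤ B + 4 * β * A.card := by
  induction A using Finset.induction_on with
  | empty =>
    intro y _ hy
    have := hB y (fun a => hy a (by simp))
    simpa using this
  | insert a A ha ih =>
    intro y hy1 hy2
    have hya := abs_le.1 (hy1 a)
    have hsum : ∀ h : ℝ, ∑ b, (y + h • ev a) b = ∑ b, y b + h := by
      intro h
      simp only [Pi.add_apply, Pi.smul_apply, smul_eq_mul, sum_add_distrib]
      congr 1
      simp [ev]
    have hval : ∀ u : ℝ, (u = 1 ∨ u = -1) →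
        Psi S l (y + (u - y a) • ev a) - β * (∑ b, (y + (u - y a) • ev a) b) ^ 2
          ≤ B + 4 * β * A.card := by
      intro u hu
      apply ih
      · intro b
        by_cases hb : b = a
        · subst hb
          simp only [Pi.add_apply, Pi.smul_apply, smul_eq_mul, ev_same, mul_one]
          rw [add_sub_cancel]
          rcases hu with hu | hu <;> simp [hu]
        · simp only [Pi.add_apply, Pi.smul_apply, smul_eq_mul, ev_ne hb, mul_zero, add_zero]
          exact hy1 b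
      · intro b hbA
        by_cases hb : b = a
        · subst hb
          simp only [Pi.add_apply, Pi.smul_apply, smul_eq_mul, ev_same, mul_one]
          rw [add_sub_cancel]
          exact hu
        · simp only [Pi.add_apply, Pi.smul_apply, smul_eq_mul, ev_ne hb, mul_zero, add_zero]
          exact hy2 b (by simp [hb, hbA])
    have p1 := hval 1 (Or.inl rfl)
    have p2 := hval (-1) (Or.inr rfl)
    rw [Psi_update S h1 h2 hd, hsum] at p1 p2
    rw [Finset.card_insert_of_notMem ha]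
    push_cast
    set g := GG S l y a
    set s := ∑ b, y b
    set t := y a
    have hcases : 0 ≤ g - 2 * β * s ∨ g - 2 * β * s ≤ 0 := le_total _ _
    rcases hcases with hc | hc
    · have q1 : 0 ≤ (1 - t) * (g - 2 * β * s) := mul_nonneg (by linarith [hya.2]) hc
      have q2 : β * (1 - t) ^ 2 ≤ β * 4 := mul_le_mul_of_nonneg_left (by nlinarith [hya.1, hya.2]) hβ
      nlinarith [p1, q1, q2]
    · have q1 : 0 ≤ (-1 - t) * (g - 2 * β * s) :=
        mul_nonneg_of_nonpos_of_nonpos (by linarith [hya.1]) hc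
      have q2 : β * (-1 - t) ^ 2 ≤ β * 4 := mul_le_mul_of_nonneg_left (by nlinarith [hya.1, hya.2]) hβ
      nlinarith [p2, q1, q2]

include h1 h2 in
/-- consequence for all points of the cube -/
lemma rounding' (hd : ∀ a c, S a a c = 0) (l : C → ℝ) (β B : ℝ) (hβ : 0 ≤ β)
    (hB : ∀ x : C → ℝ, (∀ a, x a = 1 ∨ x a = -1) → Psi S l x - β * (∑ a, x a) ^ 2 ≤ B)
    (y : C → ℝ) (hy : ∀ a, |y a| ≤ 1) :
      Psi S l y ≤ B + 4 * β * Fintype.card C + β * (∑ a, y a) ^ 2 := by
  have := rounding S h1 h2 hd l β B hβ hB univ y hy (fun a ha => absurd (mem_univ a) ha)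
  rw [Finset.card_univ] at this
  linarith

/-- mean of a function -/
noncomputable def mean (f : C → ℝ) : ℝ := (∑ a, f a) / Fintype.card C

lemma sum_sub_mean [Nonempty C] (f : C → ℝ) : ∑ a, (f a - mean f) = 0 := by
  have hK : (Fintype.card C : ℝ) ≠ 0 := by exact_mod_cast Fintype.card_ne_zero
  rw [sum_sub_distrib]
  simp only [mean, sum_const, card_univ, nsmul_eq_mul]
  field_simp
  ring

lemma abs_mean_le_one [Nonempty C] (f : C → ℝ) (hf : ∀ a, |f a| ≤ 1) : |mean f| ≤ 1 := by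
  have hK : (0:ℝ) < Fintype.card C := by exact_mod_cast Fintype.card_pos
  unfold mean
  rw [abs_div, abs_of_pos hK, div_le_one hK]
  calc |∑ a, f a| ≤ ∑ a, |f a| := Finset.abs_sum_le_sum_abs _ _
    _ ≤ ∑ _a : C, (1:ℝ) := Finset.sum_le_sum (fun a _ => hf a)
    _ = Fintype.card C := by simp

include h1 h2 in
/-- Main consequence: deviation of the gradient is bounded. -/
lemma grad_dev [Nonempty C] (hd : ∀ a c, S a a c = 0) (l : C → ℝ) (β B : ℝ) (hβ : 0 ≤ β)
    (hB : ∀ x : C → ℝ, (∀ a, x a = 1 ∨ x a = -1) → Psi S l x - β * (∑ a, x a) ^ 2 ≤ B)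
    (r : C → ℝ) (hr : ∀ a, |r a| ≤ 1/2) :
    ∑ a, |GG S l r a - mean (GG S l r)|
      ≤ 12 * (B + 4 * β * Fintype.card C + β * (∑ a, r a) ^ 2) := by
  set G := GG S l r with hG
  set σ : C → ℝ := fun a => if 0 ≤ G a - mean G then 1 else -1 with hσ
  set w : C → ℝ := fun a => σ a - mean σ with hw
  have hσ1 : ∀ a, |σ a| ≤ 1 := by
    intro a
    simp only [hσ]
    split_ifs <;> simp
  have hm := abs_mean_le_one σ hσ1
  have hw2 : ∀ a, |w a| ≤ 2 := by
    intro a
    calc |w a| ≤ |σ a| + |mean σ| := abs_sub _ _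
      _ ≤ 2 := by linarith [hσ1 a]
  have hw0 : ∑ a, w a = 0 := sum_sub_mean σ
  have hc : ∑ a, w a * G a = ∑ a, |G a - mean G| := by
    have e1 : ∑ a, w a * G a = ∑ a, w a * (G a - mean G) := by
      have : ∑ a, w a * mean G = 0 := by rw [← Finset.sum_mul, hw0, zero_mul]
      simp only [mul_sub, sum_sub_distrib, this, sub_zero]
    have e2 : ∑ a, mean σ * (G a - mean G) = 0 := by
      rw [← mul_sum, sum_sub_mean, mul_zero]
    have e3 : ∑ a, w a * (G a - mean G) = ∑ a, σ a * (G a - mean G) := by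
      simp only [hw, sub_mul, sum_sub_distrib, e2, sub_zero]
    rw [e1, e3]
    refine Finset.sum_congr rfl (fun a _ => ?_)
    simp only [hσ]
    split_ifs with h
    · rw [abs_of_nonneg h, one_mul]
    · rw [abs_of_neg (not_le.1 h)]; ring
  have hbd : ∀ y : C → ℝ, (∀ a, |y a| ≤ 1) → (∑ a, y a) ^ 2 = (∑ a, r a) ^ 2 →
      Psi S l y ≤ B + 4 * β * Fintype.card C + β * (∑ a, r a) ^ 2 := by
    intro y hy hs
    rw [← hs]
    exact rounding' S h1 h2 hd l β B hβ hB y hy
  have hsum1 : ∀ e : ℝ, (∑ a, (r + e • w) a) ^ 2 = (∑ a, r a) ^ 2 := by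
    intro e
    simp only [Pi.add_apply, Pi.smul_apply, smul_eq_mul, sum_add_distrib, ← mul_sum, hw0]
    ring
  have hsum2 : ∀ e : ℝ, (∑ a, (-r + e • w) a) ^ 2 = (∑ a, r a) ^ 2 := by
    intro e
    simp only [Pi.add_apply, Pi.smul_apply, Pi.neg_apply, smul_eq_mul, sum_add_distrib, ← mul_sum, hw0,
      sum_neg_distrib]
    ring
  have hb1 : ∀ e : ℝ, |e| ≤ 1/4 → ∀ a, |(r + e • w) a| ≤ 1 := by
    intro e he a
    simp only [Pi.add_apply, Pi.smul_apply, smul_eq_mul]
    calc |r a + e * w a| ≤ |r a| + |e * w a| := abs_add_le _ _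
      _ = |r a| + |e| * |w a| := by rw [abs_mul]
      _ ≤ 1/2 + (1/4) * 2 := by
          have := mul_le_mul he (hw2 a) (abs_nonneg _) (by norm_num)
          linarith [hr a]
      _ = 1 := by norm_num
  have hb2 : ∀ e : ℝ, |e| ≤ 1/4 → ∀ a, |(-r + e • w) a| ≤ 1 := by
    intro e he a
    simp only [Pi.add_apply, Pi.smul_apply, Pi.neg_apply, smul_eq_mul]
    calc |-r a + e * w a| ≤ |-r a| + |e * w a| := abs_add_le _ _
      _ = |r a| + |e| * |w a| := by rw [abs_mul, abs_neg]
      _ ≤ 1/2 + (1/4) * 2 := by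
          have := mul_le_mul he (hw2 a) (abs_nonneg _) (by norm_num)
          linarith [hr a]
      _ = 1 := by norm_num
  have he1 : |(1/8 : ℝ)| ≤ 1/4 := by rw [abs_of_pos (by norm_num)]; norm_num
  have he2 : |(-1/4 : ℝ)| ≤ 1/4 := by rw [abs_of_neg (by norm_num)]; norm_num
  have y1 := hbd _ (hb1 _ he1) (hsum1 _)
  have y2 := hbd _ (hb2 _ he1) (hsum2 _)
  have y3 := hbd _ (hb1 _ he2) (hsum1 _)
  have y4 := hbd _ (hb2 _ he2) (hsum2 _)
  have o1 := Psi_odd S h1 h2 l r w (1/8)
  have o2 := Psi_odd S h1 h2 l r w (-1/4)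
  rw [← hG, hc] at o1 o2
  nlinarith [y1, y2, y3, y4, o1, o2]

end sym

/-- deviations from the mean -/
lemma sum_abs_sub_mean_ge [Nonempty C] (f : C → ℝ) :
    ∑ a, |f a| - |∑ a, f a| ≤ ∑ a, |f a - mean f| := by
  have hK : (0:ℝ) < Fintype.card C := by exact_mod_cast Fintype.card_pos
  have h : ∀ a, |f a| ≤ |f a - mean f| + |mean f| := by
    intro a
    calc |f a| = |(f a - mean f) + mean f| := by ring_nf
      _ ≤ _ := abs_add_le _ _
  have h2 := Finset.sum_le_sum (fun a (_ : a ∈ (univ : Finset C)) => h a)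
  rw [sum_add_distrib] at h2
  have h3 : ∑ _a : C, |mean f| = |∑ a, f a| := by
    simp only [mean, sum_const, card_univ, nsmul_eq_mul, abs_div, abs_of_pos hK]
    field_simp
  rw [h3] at h2
  linarith

lemma mean_sub (f g : C → ℝ) : mean (fun a => f a - g a) = mean f - mean g := by
  simp [mean, sum_sub_distrib, sub_div]

lemma mean_smul (k : ℝ) (f : C → ℝ) : mean (fun a => k * f a) = k * mean f := by
  simp only [mean, ← mul_sum]
  ring

/-- decoupling step -/
lemma decouple [Nonempty C] (S : C → C → C → ℝ) (h1 : ∀ a b c, S a b c = S b a c)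
    (h2 : ∀ a b c, S a b c = S a c b)
    (hd : ∀ a c, S a a c = 0) (l : C → ℝ) (β B : ℝ) (hβ : 0 ≤ β)
    (hB : ∀ x : C → ℝ, (∀ a, x a = 1 ∨ x a = -1) → Psi S l x - β * (∑ a, x a) ^ 2 ≤ B)
    (s t : C → ℝ) (hs : ∀ a, |s a| ≤ 1) (ht : ∀ a, |t a| ≤ 1) :
    ∑ a, |TT S a s t| - |∑ a, TT S a s t|
      ≤ 384 * B + 1536 * β * Fintype.card C + 24 * β * ((∑ a, s a) ^ 2 + (∑ a, t a) ^ 2) := by
  set r : C → ℝ := (1/4 : ℝ) • (s + t) with hr
  set r' : C → ℝ := (1/4 : ℝ) • ((-1 : ℝ) • s + t) with hr'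
  have b1 : ∀ a, |r a| ≤ 1/2 := by
    intro a
    simp only [hr, Pi.smul_apply, Pi.add_apply, smul_eq_mul, abs_mul]
    have h3 : |s a + t a| ≤ 2 := (abs_add_le _ _).trans (by linarith [hs a, ht a])
    rw [abs_of_pos (by norm_num : (0:ℝ) < 1/4)]
    linarith
  have b2 : ∀ a, |r' a| ≤ 1/2 := by
    intro a
    simp only [hr', Pi.smul_apply, Pi.add_apply, smul_eq_mul, abs_mul]
    have h3 : |-1 * s a + t a| ≤ 2 := by
      refine (abs_add_le _ _).trans ?_
      rw [abs_mul, abs_neg, abs_one, one_mul]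
      linarith [hs a, ht a]
    rw [abs_of_pos (by norm_num : (0:ℝ) < 1/4)]
    linarith
  have g1 := grad_dev S h1 h2 hd l β B hβ hB r b1
  have g2 := grad_dev S h1 h2 hd l β B hβ hB r' b2
  have key : ∀ a, GG S l r' a - GG S l r a = (1/16) * TT S a s t := by
    intro a
    unfold GG
    have e : ∀ u v : C → ℝ, TT S a (u + v) (u + v) = TT S a u u + 2 * TT S a u v + TT S a v v := by
      intro u v
      rw [TT_add_left, TT_swap S h2, TT_swap S h2 a v, TT_add_left, TT_add_left, TT_swap S h2 a v u]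
      ring
    have e2 : ∀ (h : ℝ) (u : C → ℝ), TT S a (h • u) (h • u) = h ^ 2 * TT S a u u := by
      intro h u
      rw [TT_smul_left, TT_swap S h2, TT_smul_left]
      ring
    rw [hr, hr', e2, e2, e, e, e2, TT_smul_left]
    ring
  have hpt : ∀ a, (1/16) * |TT S a s t - mean (fun a => TT S a s t)|
      ≤ |GG S l r a - mean (GG S l r)| + |GG S l r' a - mean (GG S l r')| := by
    intro a
    have hm : mean (fun a => (1/16) * TT S a s t) = mean (GG S l r') - mean (GG S l r) := by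
      rw [← mean_sub]
      congr 1
      funext b
      rw [key b]
    have e3 : (1/16) * (TT S a s t - mean (fun a => TT S a s t))
        = (GG S l r' a - mean (GG S l r')) - (GG S l r a - mean (GG S l r)) := by
      rw [mean_smul] at hm
      linear_combination (-1 : ℝ) * key a - hm
    have e4 : (1/16) * |TT S a s t - mean (fun a => TT S a s t)|
        = |(1/16) * (TT S a s t - mean (fun a => TT S a s t))| := by
      rw [abs_mul, abs_of_pos (by norm_num : (0:ℝ) < 1/16)]
    rw [e4, e3]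
    refine (abs_sub _ _).trans ?_
    linarith
  have hsum := Finset.sum_le_sum (fun a (_ : a ∈ (univ : Finset C)) => hpt a)
  rw [sum_add_distrib, ← mul_sum] at hsum
  have h3 := sum_abs_sub_mean_ge (fun a => TT S a s t)
  have s1 : ∑ a, r a = (1/4) * (∑ a, s a + ∑ a, t a) := by
    simp only [hr, Pi.smul_apply, Pi.add_apply, smul_eq_mul, ← mul_sum, sum_add_distrib]
  have s2 : ∑ a, r' a = (1/4) * (-∑ a, s a + ∑ a, t a) := by
    simp only [hr', Pi.smul_apply, Pi.add_apply, smul_eq_mul, ← mul_sum, sum_add_distrib]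
    ring
  rw [s1] at g1
  rw [s2] at g2
  set x := ∑ a, s a
  set y := ∑ a, t a
  have e6 : β * (1 / 4 * (x + y)) ^ 2 + β * (1 / 4 * (-x + y)) ^ 2 = (1/8) * β * (x ^ 2 + y ^ 2) := by
    ring
  nlinarith [hsum, h3, g1, g2, e6]

end Pool.Agent.LibStrong
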