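import Mathlib
import Pool.Agent.LibStrong.Cubic

set_option autoImplicit false
set_option linter.unusedSectionVars false

namespace Pool.Agent.LibStrong

open Finset

variable {C : Type} [Fintype C] [DecidableEq C]

/-- indicator of a finset -/
noncomputable def ind (A : Finset C) (a : C) : ℝ := if a ∈ A then 1 else 0

lemma ind_sq (A : Finset C) (a : C) : ind A a ^ 2 = ind A a := by
  unfold ind; split_ifs <;> simp

lemma ind_nonneg (A : Finset C) (a : C) : 0 ≤ ind A a := by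
  unfold ind; split_ifs <;> simp

lemma ind_le_one (A : Finset C) (a : C) : ind A a ≤ 1 := by
  unfold ind; split_ifs <;> simp

/-- random signs supported on `A` -/
noncomputable def rs (A : Finset C) (ω : C → Bool) (a : C) : ℝ := ind A a * sg (ω a)

lemma abs_rs_le (A : Finset C) (ω : C → Bool) (a : C) : |rs A ω a| ≤ 1 := by
  unfold rs
  rw [abs_mul, abs_sg, mul_one, abs_of_nonneg (ind_nonneg A a)]
  exact ind_le_one A a

lemma sum_rs_sq (A : Finset C) : ∑ ω : C → Bool, (∑ a, rs A ω a) ^ 2 ≤ NN C * Fintype.card C := by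
  have h := second_moment (fun a => ind A a) (univ : Finset C)
  have h2 : ∀ ω : C → Bool, ∑ a, rs A ω a = lin (fun a => ind A a) univ ω := fun ω => rfl
  simp only [h2, h]
  apply mul_le_mul_of_nonneg_left _ NN_pos.le
  calc ∑ a, ind A a ^ 2 ≤ ∑ _a : C, (1:ℝ) :=
        Finset.sum_le_sum (fun a _ => by rw [ind_sq]; exact ind_le_one A a)
    _ = Fintype.card C := by simp

lemma TT_rs (S : C → C → C → ℝ) (A : Finset C) (ω₁ ω₂ : C → Bool) (a : C) :
    TT S a (rs A ω₁) (rs A ω₂)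
      = ∑ c, (∑ b, (S a b c * ind A b * ind A c) * sg (ω₁ b)) * sg (ω₂ c) := by
  unfold TT rs
  rw [Finset.sum_comm]
  refine Finset.sum_congr rfl (fun c _ => ?_)
  rw [Finset.sum_mul]
  refine Finset.sum_congr rfl (fun b _ => ?_)
  ring

lemma sum_TT_rs (S : C → C → C → ℝ) (A : Finset C) (ω₁ ω₂ : C → Bool) :
    ∑ a, TT S a (rs A ω₁) (rs A ω₂)
      = ∑ c, (∑ b, ((∑ a, S a b c) * ind A b * ind A c) * sg (ω₁ b)) * sg (ω₂ c) := by
  simp only [TT_rs]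
  rw [Finset.sum_comm]
  refine Finset.sum_congr rfl (fun c _ => ?_)
  rw [← Finset.sum_mul, Finset.sum_comm]
  congr 1
  refine Finset.sum_congr rfl (fun b _ => ?_)
  rw [← Finset.sum_mul]
  congr 1
  rw [← Finset.sum_mul, ← Finset.sum_mul]

lemma chaos [Nonempty C] (S : C → C → C → ℝ) (h1 : ∀ a b c, S a b c = S b a c)
    (h2 : ∀ a b c, S a b c = S a c b)
    (hd : ∀ a c, S a a c = 0) (l : C → ℝ) (β B : ℝ) (hβ : 0 ≤ β)
    (hB : ∀ x : C → ℝ, (∀ a, x a = 1 ∨ x a = -1) → Psi S l x - β * (∑ a, x a) ^ 2 ≤ B)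
    (A : Finset C) (M : ℝ) (hM : 0 ≤ M)
    (hW : ∑ c, ∑ b, ((∑ a, S a b c) * ind A b * ind A c) ^ 2 ≤ M ^ 2) :
    ∑ a, Real.sqrt (∑ c, ∑ b, (S a b c * ind A b * ind A c) ^ 2) / 4
      ≤ 384 * B + 1584 * β * Fintype.card C + M := by
  have hN := NN_pos (C := C)
  have key : ∀ ω₁ ω₂ : C → Bool,
      ∑ a, |TT S a (rs A ω₁) (rs A ω₂)| - |∑ a, TT S a (rs A ω₁) (rs A ω₂)|
      ≤ 384 * B + 1536 * β * Fintype.card C
        + 24 * β * ((∑ a, rs A ω₁ a) ^ 2 + (∑ a, rs A ω₂ a) ^ 2) := by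
    intro ω₁ ω₂
    exact decouple S h1 h2 hd l β B hβ hB _ _ (abs_rs_le A ω₁) (abs_rs_le A ω₂)
  have hs := Finset.sum_le_sum (fun ω₁ (_ : ω₁ ∈ (univ : Finset (C → Bool))) =>
    Finset.sum_le_sum (fun ω₂ (_ : ω₂ ∈ (univ : Finset (C → Bool))) => key ω₁ ω₂))
  simp only [sum_sub_distrib, sum_add_distrib, ← mul_sum, sum_const_NN, mul_add] at hs
  have q1 := sum_rs_sq A
  -- first term
  have t1 : NN C ^ 2 * ∑ a, Real.sqrt (∑ c, ∑ b, (S a b c * ind A b * ind A c) ^ 2) / 4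
      ≤ ∑ ω₁ : C → Bool, ∑ ω₂ : C → Bool, ∑ a, |TT S a (rs A ω₁) (rs A ω₂)| := by
    have e : ∑ ω₁ : C → Bool, ∑ ω₂ : C → Bool, ∑ a, |TT S a (rs A ω₁) (rs A ω₂)|
        = ∑ a, ∑ ω₁ : C → Bool, ∑ ω₂ : C → Bool, |TT S a (rs A ω₁) (rs A ω₂)| := by
      rw [Finset.sum_comm]
      have : ∀ ω₂ : C → Bool, ∑ ω₁ : C → Bool, ∑ a, |TT S a (rs A ω₁) (rs A ω₂)|
          = ∑ a, ∑ ω₁ : C → Bool, |TT S a (rs A ω₁) (rs A ω₂)| := fun ω₂ => Finset.sum_comm
      simp only [this]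
      rw [Finset.sum_comm]
      refine Finset.sum_congr rfl (fun a _ => ?_)
      rw [Finset.sum_comm]
    rw [e, mul_sum]
    refine Finset.sum_le_sum (fun a _ => ?_)
    have := bilin_khintchine (fun b c => S a b c * ind A b * ind A c)
    simp only [TT_rs]
    calc NN C ^ 2 * (Real.sqrt (∑ c, ∑ b, (S a b c * ind A b * ind A c) ^ 2) / 4)
        = NN C ^ 2 * Real.sqrt (∑ c, ∑ b, (S a b c * ind A b * ind A c) ^ 2) / 4 := by ring
      _ ≤ _ := this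
  have t2 : ∑ ω₁ : C → Bool, ∑ ω₂ : C → Bool, |∑ a, TT S a (rs A ω₁) (rs A ω₂)|
      ≤ NN C ^ 2 * M := by
    simp only [sum_TT_rs]
    exact bilin_first_le (fun b c => (∑ a, S a b c) * ind A b * ind A c) M hM hW
  have q2 : β * ∑ ω : C → Bool, (∑ a, rs A ω a) ^ 2 ≤ β * (NN C * Fintype.card C) :=
    mul_le_mul_of_nonneg_left q1 hβ
  have q3 : NN C * (β * ∑ ω : C → Bool, (∑ a, rs A ω a) ^ 2) ≤ NN C * (β * (NN C * Fintype.card C)) :=
    mul_le_mul_of_nonneg_left q2 hN.le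
  have fin : NN C ^ 2 * (∑ a, Real.sqrt (∑ c, ∑ b, (S a b c * ind A b * ind A c) ^ 2) / 4)
      ≤ NN C ^ 2 * (384 * B + 1584 * β * Fintype.card C + M) := by
    nlinarith [hs, t1, t2, q3]
  exact le_of_mul_le_mul_left fin (by positivity)

end Pool.Agent.LibStrong
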