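import Mathlib
import Pool.Agent.LibStrong.Chaos

set_option autoImplicit false
set_option linter.unusedSectionVars false

namespace Pool.Agent.LibStrong

open Finset

variable {V J C : Type} [Fintype V] [DecidableEq V] [Fintype J] [DecidableEq J]
  [Fintype C] [DecidableEq C]

/-- a system of triples of points -/
structure Sys (V J : Type) where
  p0 : J → V
  p1 : J → V
  p2 : J → V

/-- triples captured by `X` -/
def Sys.capS (P : Sys V J) (X : Finset V) : Finset J :=
  univ.filter fun τ => (P.p0 τ ∈ X ∧ P.p1 τ ∈ X) ∨ (P.p0 τ ∈ X ∧ P.p2 τ ∈ X) ∨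
    (P.p1 τ ∈ X ∧ P.p2 τ ∈ X)

/-- number of captured triples -/
def Sys.cap (P : Sys V J) (X : Finset V) : ℕ := (P.capS X).card

/-- degree bound -/
def Deg (f : J → V) (q : ℕ) : Prop := ∀ v, (univ.filter (fun τ => f τ = v)).card ≤ q

/-- triples hitting `X` at position `f` -/
def hit (f : J → V) (X : Finset V) : Finset J := univ.filter (fun τ => f τ ∈ X)

lemma hit_card (f : J → V) (q : ℕ) (hf : Deg f q) (X : Finset V) : (hit f X).card ≤ q * X.card := by
  apply Finset.card_le_mul_card_image_of_maps_to (f := f)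
  · intro τ hτ
    exact (mem_filter.1 hτ).2
  · intro v _
    refine le_trans (Finset.card_le_card ?_) (hf v)
    intro τ hτ
    simp only [mem_filter, mem_univ, true_and] at hτ ⊢
    exact hτ.2

section deg
variable (P : Sys V J) (q : ℕ) (h0 : Deg P.p0 q) (h1 : Deg P.p1 q) (h2 : Deg P.p2 q)

include h0 h1 h2

lemma inter_card (X Y : Finset V) (t : ℕ) (hX : Fintype.card J + 3 * q * t ≤ 2 * P.cap X)
    (hY : Fintype.card J + 3 * q * t ≤ 2 * P.cap Y) (hq : 0 < q) : t ≤ (X ∩ Y).card := by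
  have e1 : (P.capS X ∪ P.capS Y).card + (P.capS X ∩ P.capS Y).card = P.cap X + P.cap Y :=
    Finset.card_union_add_card_inter _ _
  have e2 : (P.capS X ∪ P.capS Y).card ≤ Fintype.card J := Finset.card_le_univ _
  have e3 : P.capS X ∩ P.capS Y ⊆ hit P.p0 (X ∩ Y) ∪ (hit P.p1 (X ∩ Y) ∪ hit P.p2 (X ∩ Y)) := by
    intro τ hτ
    simp only [Sys.capS, hit, mem_inter, mem_union, mem_filter, mem_univ, true_and] at hτ ⊢
    tauto
  have e4 := Finset.card_le_card e3
  have e5 := Finset.card_union_le (hit P.p0 (X ∩ Y)) (hit P.p1 (X ∩ Y) ∪ hit P.p2 (X ∩ Y))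
  have e6 := Finset.card_union_le (hit P.p1 (X ∩ Y)) (hit P.p2 (X ∩ Y))
  have e7 := hit_card P.p0 q h0 (X ∩ Y)
  have e8 := hit_card P.p1 q h1 (X ∩ Y)
  have e9 := hit_card P.p2 q h2 (X ∩ Y)
  have e10 : 3 * q * t ≤ 3 * q * (X ∩ Y).card := by nlinarith
  exact Nat.le_of_mul_le_mul_left e10 (by positivity)

lemma size_gt (X : Finset V) (t : ℕ) (hX : Fintype.card J + 3 * q * t ≤ 2 * P.cap X)
    (hJ : 0 < Fintype.card J) : t < X.card := by
  -- counting positions
  have e : 2 * P.cap X ≤ (hit P.p0 X).card + (hit P.p1 X).card + (hit P.p2 X).card := by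
    have a0 : (hit P.p0 X).card = ∑ τ : J, if P.p0 τ ∈ X then 1 else 0 := by
      rw [hit, Finset.card_filter]
    have a1 : (hit P.p1 X).card = ∑ τ : J, if P.p1 τ ∈ X then 1 else 0 := by
      rw [hit, Finset.card_filter]
    have a2 : (hit P.p2 X).card = ∑ τ : J, if P.p2 τ ∈ X then 1 else 0 := by
      rw [hit, Finset.card_filter]
    rw [Sys.cap, Sys.capS, Finset.card_filter, a0, a1, a2, mul_sum, ← sum_add_distrib, ← sum_add_distrib]
    refine Finset.sum_le_sum (fun τ _ => ?_)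
    by_cases b0 : P.p0 τ ∈ X <;> by_cases b1 : P.p1 τ ∈ X <;> by_cases b2 : P.p2 τ ∈ X <;>
      simp [b0, b1, b2]
  have e7 := hit_card P.p0 q h0 X
  have e8 := hit_card P.p1 q h1 X
  have e9 := hit_card P.p2 q h2 X
  by_contra hcon
  push Not at hcon
  have : 3 * q * X.card ≤ 3 * q * t := Nat.mul_le_mul_left _ hcon
  nlinarith

lemma cap_remove (X Y : Finset V) : P.cap (X ∪ Y) ≤ P.cap X + 3 * q * Y.card := by
  have e3 : P.capS (X ∪ Y) ⊆ P.capS X ∪ (hit P.p0 Y ∪ (hit P.p1 Y ∪ hit P.p2 Y)) := by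
    intro τ hτ
    simp only [Sys.capS, hit, mem_union, mem_filter, mem_univ, true_and] at hτ ⊢
    tauto
  have e4 := Finset.card_le_card e3
  have e5 := Finset.card_union_le (P.capS X) (hit P.p0 Y ∪ (hit P.p1 Y ∪ hit P.p2 Y))
  have e5' := Finset.card_union_le (hit P.p0 Y) (hit P.p1 Y ∪ hit P.p2 Y)
  have e6 := Finset.card_union_le (hit P.p1 Y) (hit P.p2 Y)
  have e7 := hit_card P.p0 q h0 Y
  have e8 := hit_card P.p1 q h1 Y
  have e9 := hit_card P.p2 q h2 Y
  unfold Sys.cap
  nlinarith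

end deg

/-- the pair property -/
def Good (f g : J → V) : Prop :=
  ∀ τ τ' σ σ' : J, τ ≠ τ' → f τ = f τ' → f σ = f σ' → g τ = g σ → g τ' = g σ' → τ = σ ∧ τ' = σ'

lemma pairs_sq (f g : J → V) (q : ℕ) (hg : Deg g q) (hgood : Good f g) (X : Finset V) :
    (hit f X ∩ hit g X).card ^ 2 ≤ X.card ^ 2 * (q + X.card) := by
  set E := hit f X ∩ hit g X with hE
  set Pr : Finset (J × J) := (E ×ˢ E).filter (fun z => f z.1 = f z.2) with hPr
  have hEf : ∀ τ ∈ E, f τ ∈ X := by
    intro τ hτ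
    simp only [hE, hit, mem_inter, mem_filter, mem_univ, true_and] at hτ
    exact hτ.1
  have hEg : ∀ τ ∈ E, g τ ∈ X := by
    intro τ hτ
    simp only [hE, hit, mem_inter, mem_filter, mem_univ, true_and] at hτ
    exact hτ.2
  have c1 : E.card = ∑ v ∈ X, (E.filter (fun τ => f τ = v)).card :=
    Finset.card_eq_sum_card_fiberwise hEf
  have c2 : Pr.card = ∑ v ∈ X, (E.filter (fun τ => f τ = v)).card ^ 2 := by
    rw [Finset.card_eq_sum_card_fiberwise (f := fun z : J × J => f z.1) (t := X)]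
    · refine Finset.sum_congr rfl (fun v _ => ?_)
      rw [sq, ← Finset.card_product]
      congr 1
      ext z
      simp only [hPr, mem_filter, mem_product]
      constructor
      · rintro ⟨⟨⟨h1, h2⟩, h3⟩, h4⟩
        exact ⟨⟨h1, h4⟩, h2, by rw [← h3, h4]⟩
      · rintro ⟨⟨h1, h2⟩, h3, h4⟩
        exact ⟨⟨⟨h1, h3⟩, by rw [h2, h4]⟩, h2⟩
    · intro z hz
      have hz' : z ∈ Pr := hz
      simp only [hPr, mem_filter, mem_product] at hz'
      exact hEf _ hz'.1.1
  have c3 : E.card ^ 2 ≤ X.card * Pr.card := by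
    rw [c1, c2]
    exact sq_sum_le_card_mul_sum_sq
  -- split
  have c4 : Pr.card ≤ q * X.card + X.card ^ 2 := by
    have s1 : Pr = Pr.filter (fun z => z.1 = z.2) ∪ Pr.filter (fun z => z.1 ≠ z.2) := by
      rw [Finset.filter_union_filter_not_eq]
    have s2 : (Pr.filter (fun z => z.1 = z.2)).card ≤ q * X.card := by
      have : (Pr.filter (fun z => z.1 = z.2)).card ≤ E.card := by
        apply Finset.card_le_card_of_injOn (fun z => z.1)
        · intro z hz
          have hz' : z ∈ Pr.filter (fun z => z.1 = z.2) := hz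
          simp only [hPr, mem_filter, mem_product] at hz'
          exact hz'.1.1.1
        · intro z hz z' hz' h
          have k1 : z ∈ Pr.filter (fun z => z.1 = z.2) := hz
          have k2 : z' ∈ Pr.filter (fun z => z.1 = z.2) := hz'
          have l1 := (mem_filter.1 k1).2
          have l2 := (mem_filter.1 k2).2
          have h' : z.1 = z'.1 := h
          exact Prod.ext h' (by rw [← l1, ← l2, h'])
      refine this.trans (le_trans (Finset.card_le_card ?_) (hit_card g q hg X))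
      intro τ hτ
      simp only [hit, mem_filter, mem_univ, true_and]
      exact hEg τ hτ
    have s3 : (Pr.filter (fun z => z.1 ≠ z.2)).card ≤ X.card ^ 2 := by
      rw [sq, ← Finset.card_product]
      apply Finset.card_le_card_of_injOn (fun z => (g z.1, g z.2))
      · intro z hz
        have hz' : z ∈ Pr.filter (fun z => z.1 ≠ z.2) := hz
        simp only [hPr, mem_filter, mem_product] at hz'
        simp only [coe_product, Set.mem_prod, mem_coe]
        exact ⟨hEg _ hz'.1.1.1, hEg _ hz'.1.1.2⟩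
      · intro z hz z' hz' h
        have k1 : z ∈ Pr.filter (fun z => z.1 ≠ z.2) := hz
        have k2 : z' ∈ Pr.filter (fun z => z.1 ≠ z.2) := hz'
        simp only [hPr, mem_filter, mem_product] at k1 k2
        have h' := Prod.ext_iff.1 h
        obtain ⟨e1, e2⟩ := hgood z.1 z.2 z'.1 z'.2 k1.2 k1.1.2 k2.1.2 h'.1 h'.2
        exact Prod.ext e1 e2
    calc Pr.card = (Pr.filter (fun z => z.1 = z.2) ∪ Pr.filter (fun z => z.1 ≠ z.2)).card := by
          rw [← s1]
      _ ≤ _ := Finset.card_union_le _ _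
      _ ≤ _ := Nat.add_le_add s2 s3
  calc E.card ^ 2 ≤ X.card * Pr.card := c3
    _ ≤ X.card * (q * X.card + X.card ^ 2) := Nat.mul_le_mul_left _ c4
    _ = X.card ^ 2 * (q + X.card) := by ring

lemma pairs_small (f g : J → V) (q : ℕ) (hg : Deg g q) (hgood : Good f g) (X : Finset V)
    (hX : 144 * (q + X.card) ≤ q ^ 2) : 12 * (hit f X ∩ hit g X).card ≤ q * X.card := by
  have h := pairs_sq f g q hg hgood X
  have h2 : (12 * (hit f X ∩ hit g X).card) ^ 2 ≤ (q * X.card) ^ 2 := by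
    calc (12 * (hit f X ∩ hit g X).card) ^ 2 = 144 * (hit f X ∩ hit g X).card ^ 2 := by ring
      _ ≤ 144 * (X.card ^ 2 * (q + X.card)) := Nat.mul_le_mul_left _ h
      _ = X.card ^ 2 * (144 * (q + X.card)) := by ring
      _ ≤ X.card ^ 2 * q ^ 2 := Nat.mul_le_mul_left _ hX
      _ = (q * X.card) ^ 2 := by ring
  exact (Nat.pow_le_pow_iff_left (by norm_num)).1 h2

lemma cap_small (P : Sys V J) (q : ℕ) (h1 : Deg P.p1 q) (h2 : Deg P.p2 q)
    (g01 : Good P.p0 P.p1) (g02 : Good P.p0 P.p2) (g12 : Good P.p1 P.p2) (X : Finset V)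
    (hX : 144 * (q + X.card) ≤ q ^ 2) : 4 * P.cap X ≤ q * X.card := by
  have e01 := pairs_small P.p0 P.p1 q h1 g01 X hX
  have e02 := pairs_small P.p0 P.p2 q h2 g02 X hX
  have e12 := pairs_small P.p1 P.p2 q h2 g12 X hX
  have e : P.capS X ⊆ (hit P.p0 X ∩ hit P.p1 X) ∪ ((hit P.p0 X ∩ hit P.p2 X) ∪ (hit P.p1 X ∩ hit P.p2 X)) := by
    intro τ hτ
    simp only [Sys.capS, hit, mem_inter, mem_union, mem_filter, mem_univ, true_and] at hτ ⊢
    tauto
  have e4 := Finset.card_le_card e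
  have e5 := Finset.card_union_le (hit P.p0 X ∩ hit P.p1 X) ((hit P.p0 X ∩ hit P.p2 X) ∪ (hit P.p1 X ∩ hit P.p2 X))
  have e6 := Finset.card_union_le (hit P.p0 X ∩ hit P.p2 X) (hit P.p1 X ∩ hit P.p2 X)
  unfold Sys.cap
  omega

end Pool.Agent.LibStrong
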