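import Mathlib
import Pool.Agent.LibStrong.System

set_option autoImplicit false
set_option linter.unusedSectionVars false
set_option linter.unusedSimpArgs false

namespace Pool.Agent.LibStrong

open Finset

variable {V J C : Type} [Fintype V] [DecidableEq V] [Fintype J] [DecidableEq J]
  [Fintype C] [DecidableEq C]

section tensor

variable (c0 c1 c2 : J → C)

/-- rainbow triples -/
def Rb : Finset J := univ.filter fun τ => c0 τ ≠ c1 τ ∧ c0 τ ≠ c2 τ ∧ c1 τ ≠ c2 τ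

/-- ordered weight -/
def wt (a b c : C) : ℕ := ((Rb c0 c1 c2).filter (fun τ => c0 τ = a ∧ c1 τ = b ∧ c2 τ = c)).card

/-- symmetric weight, natural number -/
def Sn (a b c : C) : ℕ :=
  wt c0 c1 c2 a b c + wt c0 c1 c2 a c b + wt c0 c1 c2 b a c + wt c0 c1 c2 b c a
    + wt c0 c1 c2 c a b + wt c0 c1 c2 c b a

/-- symmetric weight -/
noncomputable def Sr (a b c : C) : ℝ := (Sn c0 c1 c2 a b c : ℝ)

lemma Sr_sym1 (a b c : C) : Sr c0 c1 c2 a b c = Sr c0 c1 c2 b a c := by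
  unfold Sr Sn; push_cast; ring

lemma Sr_sym2 (a b c : C) : Sr c0 c1 c2 a b c = Sr c0 c1 c2 a c b := by
  unfold Sr Sn; push_cast; ring

lemma wt_zero (a b c : C) (h : a = b ∨ a = c ∨ b = c) : wt c0 c1 c2 a b c = 0 := by
  unfold wt
  rw [Finset.card_eq_zero, Finset.filter_eq_empty_iff]
  intro τ hτ
  simp only [Rb, mem_filter, mem_univ, true_and] at hτ
  rintro ⟨h1, h2, h3⟩
  obtain ⟨k1, k2, k3⟩ := hτ
  rw [h1, h2] at k1
  rw [h1, h3] at k2
  rw [h2, h3] at k3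
  rcases h with h | h | h
  · exact k1 h
  · exact k2 h
  · exact k3 h

lemma Sr_diag (a c : C) : Sr c0 c1 c2 a a c = 0 := by
  unfold Sr Sn
  rw [wt_zero c0 c1 c2 a a c (Or.inl rfl), wt_zero c0 c1 c2 a c a (Or.inr (Or.inl rfl)),
    wt_zero c0 c1 c2 c a a (Or.inr (Or.inr rfl))]
  simp

lemma Sr_nonneg (a b c : C) : 0 ≤ Sr c0 c1 c2 a b c := by
  unfold Sr; positivity

lemma Sr_le_sq (a b c : C) : Sr c0 c1 c2 a b c ≤ Sr c0 c1 c2 a b c ^ 2 := by
  unfold Sr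
  have : Sn c0 c1 c2 a b c ≤ Sn c0 c1 c2 a b c ^ 2 := Nat.le_self_pow (by norm_num) _
  exact_mod_cast this

lemma sum_wt (F : C → C → C → ℝ) :
    ∑ a, ∑ b, ∑ c, (wt c0 c1 c2 a b c : ℝ) * F a b c
      = ∑ τ ∈ Rb c0 c1 c2, F (c0 τ) (c1 τ) (c2 τ) := by
  have e1 : ∀ a b c, (wt c0 c1 c2 a b c : ℝ) * F a b c
      = ∑ τ ∈ Rb c0 c1 c2, if (c0 τ = a ∧ c1 τ = b ∧ c2 τ = c) then F a b c else 0 := by
    intro a b c
    rw [← Finset.sum_filter, Finset.sum_const, nsmul_eq_mul]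
    rfl
  simp only [e1]
  have e2 : ∀ a b, ∑ c, ∑ τ ∈ Rb c0 c1 c2, (if (c0 τ = a ∧ c1 τ = b ∧ c2 τ = c) then F a b c else 0)
      = ∑ τ ∈ Rb c0 c1 c2, ∑ c, (if (c0 τ = a ∧ c1 τ = b ∧ c2 τ = c) then F a b c else 0) :=
    fun a b => Finset.sum_comm
  simp only [e2]
  have e3 : ∀ a, ∑ b, ∑ τ ∈ Rb c0 c1 c2, ∑ c, (if (c0 τ = a ∧ c1 τ = b ∧ c2 τ = c) then F a b c else 0)
      = ∑ τ ∈ Rb c0 c1 c2, ∑ b, ∑ c, (if (c0 τ = a ∧ c1 τ = b ∧ c2 τ = c) then F a b c else 0) :=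
    fun a => Finset.sum_comm
  simp only [e3]
  rw [Finset.sum_comm]
  refine Finset.sum_congr rfl (fun τ _ => ?_)
  rw [Finset.sum_eq_single (c0 τ), Finset.sum_eq_single (c1 τ), Finset.sum_eq_single (c2 τ)]
  · simp
  · intro c _ hc
    rw [if_neg]
    rintro ⟨_, _, h⟩
    exact hc h.symm
  · intro h; exact absurd (mem_univ _) h
  · intro b _ hb
    apply Finset.sum_eq_zero
    intro c _
    rw [if_neg]
    rintro ⟨_, h, _⟩
    exact hb h.symm
  · intro h; exact absurd (mem_univ _) h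
  · intro a _ ha
    apply Finset.sum_eq_zero
    intro b _
    apply Finset.sum_eq_zero
    intro c _
    rw [if_neg]
    rintro ⟨h, _, _⟩
    exact ha h.symm
  · intro h; exact absurd (mem_univ _) h

lemma sum3_swap12 (G : C → C → C → ℝ) : ∑ a, ∑ b, ∑ c, G a b c = ∑ a, ∑ b, ∑ c, G b a c :=
  Finset.sum_comm

lemma sum3_swap23 (G : C → C → C → ℝ) : ∑ a, ∑ b, ∑ c, G a b c = ∑ a, ∑ b, ∑ c, G a c b :=
  Finset.sum_congr rfl (fun _ _ => Finset.sum_comm)

lemma sum_Sr (F : C → C → C → ℝ) :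
    ∑ a, ∑ b, ∑ c, Sr c0 c1 c2 a b c * F a b c
      = ∑ τ ∈ Rb c0 c1 c2, (F (c0 τ) (c1 τ) (c2 τ) + F (c0 τ) (c2 τ) (c1 τ)
        + F (c1 τ) (c0 τ) (c2 τ) + F (c2 τ) (c0 τ) (c1 τ) + F (c1 τ) (c2 τ) (c0 τ)
        + F (c2 τ) (c1 τ) (c0 τ)) := by
  have e : ∀ a b c, Sr c0 c1 c2 a b c * F a b c =
      (wt c0 c1 c2 a b c : ℝ) * F a b c + (wt c0 c1 c2 a c b : ℝ) * F a b c
      + (wt c0 c1 c2 b a c : ℝ) * F a b c + (wt c0 c1 c2 b c a : ℝ) * F a b c
      + (wt c0 c1 c2 c a b : ℝ) * F a b c + (wt c0 c1 c2 c b a : ℝ) * F a b c := by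
    intro a b c
    unfold Sr Sn
    push_cast
    ring
  simp only [e, sum_add_distrib]
  have f1 := sum_wt c0 c1 c2 F
  have f2 : ∑ a, ∑ b, ∑ c, (wt c0 c1 c2 a c b : ℝ) * F a b c
      = ∑ τ ∈ Rb c0 c1 c2, F (c0 τ) (c2 τ) (c1 τ) := by
    rw [sum3_swap23, ← sum_wt c0 c1 c2 (fun a b c => F a c b)]
  have f3 : ∑ a, ∑ b, ∑ c, (wt c0 c1 c2 b a c : ℝ) * F a b c
      = ∑ τ ∈ Rb c0 c1 c2, F (c1 τ) (c0 τ) (c2 τ) := by
    rw [sum3_swap12, ← sum_wt c0 c1 c2 (fun a b c => F b a c)]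
  have f4 : ∑ a, ∑ b, ∑ c, (wt c0 c1 c2 b c a : ℝ) * F a b c
      = ∑ τ ∈ Rb c0 c1 c2, F (c2 τ) (c0 τ) (c1 τ) := by
    rw [sum3_swap12, sum3_swap23, ← sum_wt c0 c1 c2 (fun a b c => F c a b)]
  have f5 : ∑ a, ∑ b, ∑ c, (wt c0 c1 c2 c a b : ℝ) * F a b c
      = ∑ τ ∈ Rb c0 c1 c2, F (c1 τ) (c2 τ) (c0 τ) := by
    rw [sum3_swap23, sum3_swap12, ← sum_wt c0 c1 c2 (fun a b c => F b c a)]
  have f6 : ∑ a, ∑ b, ∑ c, (wt c0 c1 c2 c b a : ℝ) * F a b c
      = ∑ τ ∈ Rb c0 c1 c2, F (c2 τ) (c1 τ) (c0 τ) := by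
    rw [sum3_swap12, sum3_swap23, sum3_swap12, ← sum_wt c0 c1 c2 (fun a b c => F c b a)]
  rw [f1, f2, f3, f4, f5, f6]

/-- number of triples with at least two positions coloured `a` -/
def capc (a : C) : ℕ :=
  (univ.filter fun τ : J => (c0 τ = a ∧ c1 τ = a) ∨ (c0 τ = a ∧ c2 τ = a) ∨ (c1 τ = a ∧ c2 τ = a)).card

/-- linear coefficients -/
noncomputable def lc (a : C) : ℝ := capc c0 c1 c2 a + (1/4) * ∑ b, ∑ c, Sr c0 c1 c2 a b c

lemma sum_maj (x0 x1 x2 : C) (x : C → ℝ) :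
    ∑ a, (if (x0 = a ∧ x1 = a) ∨ (x0 = a ∧ x2 = a) ∨ (x1 = a ∧ x2 = a) then x a else 0)
      = if x0 = x1 then x x0 else if x0 = x2 then x x0 else if x1 = x2 then x x1 else 0 := by
  by_cases h01 : x0 = x1
  · subst h01
    rw [if_pos rfl, Finset.sum_eq_single x0]
    · simp
    · intro b _ hb
      rw [if_neg]
      rintro (h | h | h)
      · exact hb h.1.symm
      · exact hb h.1.symm
      · exact hb h.1.symm
    · intro h; exact absurd (mem_univ _) h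
  · rw [if_neg h01]
    by_cases h02 : x0 = x2
    · subst h02
      rw [if_pos rfl, Finset.sum_eq_single x0]
      · simp
      · intro b _ hb
        rw [if_neg]
        rintro (h | h | h)
        · exact hb h.1.symm
        · exact hb h.1.symm
        · exact hb h.2.symm
      · intro h; exact absurd (mem_univ _) h
    · rw [if_neg h02]
      by_cases h12 : x1 = x2
      · subst h12
        rw [if_pos rfl, Finset.sum_eq_single x1]
        · simp
        · intro b _ hb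
          rw [if_neg]
          rintro (h | h | h)
          · exact hb h.2.symm
          · exact hb h.2.symm
          · exact hb h.2.symm
        · intro h; exact absurd (mem_univ _) h
      · rw [if_neg h12]
        apply Finset.sum_eq_zero
        intro a _
        rw [if_neg]
        rintro (⟨h, h'⟩ | ⟨h, h'⟩ | ⟨h, h'⟩)
        · exact h01 (h.trans h'.symm)
        · exact h02 (h.trans h'.symm)
        · exact h12 (h.trans h'.symm)

/-- the value of the cubic function at a sign vector -/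
lemma Psi_eq (x : C → ℝ) (hx : ∀ a, x a = 1 ∨ x a = -1) :
    Psi (Sr c0 c1 c2) (lc c0 c1 c2) x
      = ∑ τ : J, (2 * (if (x (c0 τ) = 1 ∧ x (c1 τ) = 1) ∨ (x (c0 τ) = 1 ∧ x (c2 τ) = 1) ∨
          (x (c1 τ) = 1 ∧ x (c2 τ) = 1) then (1:ℝ) else 0) - 1) := by
  unfold Psi
  have e1 : T3 (Sr c0 c1 c2) x x x
      = ∑ a, ∑ b, ∑ c, Sr c0 c1 c2 a b c * (x a * x b * x c) := by
    unfold T3 TT
    refine Finset.sum_congr rfl (fun a _ => ?_)
    rw [mul_sum]
    refine Finset.sum_congr rfl (fun b _ => ?_)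
    rw [mul_sum]
    refine Finset.sum_congr rfl (fun c _ => ?_)
    ring
  have e2 : ∑ a, lc c0 c1 c2 a * x a
      = ∑ a, (capc c0 c1 c2 a : ℝ) * x a + (1/4) * ∑ a, ∑ b, ∑ c, Sr c0 c1 c2 a b c * x a := by
    unfold lc
    rw [mul_sum, ← sum_add_distrib]
    refine Finset.sum_congr rfl (fun a _ => ?_)
    have : ∑ b, ∑ c, Sr c0 c1 c2 a b c * x a = (∑ b, ∑ c, Sr c0 c1 c2 a b c) * x a := by
      rw [Finset.sum_mul]
      refine Finset.sum_congr rfl (fun b _ => ?_)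
      rw [Finset.sum_mul]
    rw [this]
    ring
  have e3 : ∑ a, (capc c0 c1 c2 a : ℝ) * x a
      = ∑ τ : J, (if c0 τ = c1 τ then x (c0 τ) else if c0 τ = c2 τ then x (c0 τ)
          else if c1 τ = c2 τ then x (c1 τ) else 0) := by
    have : ∀ a, (capc c0 c1 c2 a : ℝ) * x a
        = ∑ τ : J, (if (c0 τ = a ∧ c1 τ = a) ∨ (c0 τ = a ∧ c2 τ = a) ∨ (c1 τ = a ∧ c2 τ = a)
            then x a else 0) := by
      intro a
      rw [← Finset.sum_filter, Finset.sum_const, nsmul_eq_mul]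
      rfl
    simp only [this]
    rw [Finset.sum_comm]
    refine Finset.sum_congr rfl (fun τ _ => ?_)
    exact sum_maj _ _ _ x
  rw [e1, e2, e3, sum_Sr c0 c1 c2 (fun a b c => x a * x b * x c),
    sum_Sr c0 c1 c2 (fun a _ _ => x a)]
  rw [mul_sum, mul_sum]
  unfold Rb
  rw [Finset.sum_filter, Finset.sum_filter, ← sum_add_distrib, ← sum_sub_distrib]
  refine Finset.sum_congr rfl (fun τ _ => ?_)
  have hx0 := hx (c0 τ)
  have hx1 := hx (c1 τ)
  have hx2 := hx (c2 τ)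
  have hne : ¬ ((-1:ℝ) = 1) := by norm_num
  by_cases h01 : c0 τ = c1 τ
  · simp only [h01, if_true, ne_eq, not_true, false_and, if_false] at hx0 ⊢
    rcases hx1 with h1 | h1 <;> rcases hx2 with h2 | h2 <;> simp [h1, h2, hne] <;> norm_num
  · by_cases h02 : c0 τ = c2 τ
    · have h21 : ¬ (c2 τ = c1 τ) := fun h => h01 (h02.trans h)
      simp only [h01, h02, h21, if_true, ne_eq, not_true, false_and, and_false, if_false,
        not_false_eq_true, true_and] at hx0 ⊢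
      rcases hx1 with h1 | h1 <;> rcases hx2 with h2 | h2 <;> simp [h1, h2, hne] <;> norm_num
    · by_cases h12 : c1 τ = c2 τ
      · simp only [h02, h12, if_true, ne_eq, not_true, and_false, if_false, not_false_eq_true,
          true_and] at hx0 ⊢
        rcases hx0 with h0 | h0 <;> rcases hx2 with h2 | h2 <;> simp [h0, h2, hne] <;> norm_num
      · simp only [h01, h02, h12, if_true, ne_eq, not_false_eq_true, and_self, if_false]
        rcases hx0 with h0 | h0 <;> rcases hx1 with h1 | h1 <;> rcases hx2 with h2 | h2 <;>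
          simp [h0, h1, h2, hne] <;> norm_num

lemma Rb_card_le : (Rb c0 c1 c2).card ≤ Fintype.card J := Finset.card_le_univ _

lemma sum_Sr_all : ∑ a, ∑ b, ∑ c, Sr c0 c1 c2 a b c = 6 * ((Rb c0 c1 c2).card : ℝ) := by
  have h := sum_Sr c0 c1 c2 (fun _ _ _ => (1:ℝ))
  simp only [mul_one] at h
  rw [h]
  rw [Finset.sum_const, nsmul_eq_mul]
  ring

/-- sum of the linear coefficients -/
lemma sum_lc : ∑ a, lc c0 c1 c2 a = (Fintype.card J : ℝ) + (1/2) * ((Rb c0 c1 c2).card : ℝ) := by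
  have h := Psi_eq c0 c1 c2 (fun _ => 1) (fun _ => Or.inl rfl)
  unfold Psi at h
  have e1 : T3 (Sr c0 c1 c2) (fun _ => 1) (fun _ => 1) (fun _ => 1)
      = ∑ a, ∑ b, ∑ c, Sr c0 c1 c2 a b c := by
    unfold T3 TT
    simp
  rw [e1, sum_Sr_all] at h
  simp only [mul_one, and_self, or_self, if_true] at h
  norm_num at h
  linarith

lemma sum_capc : ∑ a, (capc c0 c1 c2 a : ℝ) = (Fintype.card J : ℝ) - ((Rb c0 c1 c2).card : ℝ) := by
  have h := sum_lc c0 c1 c2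
  unfold lc at h
  rw [sum_add_distrib, ← mul_sum, sum_Sr_all] at h
  linarith

end tensor

end Pool.Agent.LibStrong
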