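import Mathlib
import Pool.Agent.LibStrong.Colour

set_option autoImplicit false
set_option linter.unusedSectionVars false

namespace Pool.Agent.LibStrong

open Finset

variable {V J C : Type} [Fintype V] [DecidableEq V] [Fintype J] [DecidableEq J]
  [Fintype C] [DecidableEq C]

/-- points whose colour is in `T` -/
def VT (col : V → C) (T : Finset C) : Finset V := univ.filter (fun v => col v ∈ T)

/-- colour class -/
def cls (col : V → C) (a : C) : Finset V := univ.filter (fun v => col v = a)

/-- the composed colour maps -/
abbrev cc (f : J → V) (col : V → C) : J → C := fun τ => col (f τ)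

lemma capc_eq (P : Sys V J) (col : V → C) (a : C) :
    capc (cc P.p0 col) (cc P.p1 col) (cc P.p2 col) a = P.cap (cls col a) := by
  unfold capc Sys.cap Sys.capS cls cc
  simp only [mem_filter, mem_univ, true_and]

lemma Psi_sign (P : Sys V J) (col : V → C) (x : C → ℝ) (hx : ∀ a, x a = 1 ∨ x a = -1) :
    Psi (Sr (cc P.p0 col) (cc P.p1 col) (cc P.p2 col)) (lc (cc P.p0 col) (cc P.p1 col) (cc P.p2 col)) x
      = 2 * (P.cap (VT col (univ.filter (fun a => x a = 1))) : ℝ) - Fintype.card J := by
  rw [Psi_eq _ _ _ x hx, sum_sub_distrib, ← mul_sum, Finset.sum_boole]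
  simp only [sum_const, card_univ, nsmul_eq_mul, mul_one]
  unfold Sys.cap Sys.capS VT cc
  simp only [mem_filter, mem_univ, true_and]

lemma sum_sign (x : C → ℝ) (hx : ∀ a, x a = 1 ∨ x a = -1) :
    ∑ a, x a = 2 * ((univ.filter (fun a => x a = 1)).card : ℝ) - Fintype.card C := by
  have : ∀ a, x a = 2 * (if x a = 1 then (1:ℝ) else 0) - 1 := by
    intro a
    rcases hx a with h | h <;> rw [h] <;> norm_num
  calc ∑ a, x a = ∑ a, (2 * (if x a = 1 then (1:ℝ) else 0) - 1) :=
        Finset.sum_congr rfl (fun a _ => this a)
    _ = _ := by
      rw [sum_sub_distrib, ← mul_sum, Finset.sum_boole]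
      simp

lemma sum_cls (col : V → C) : ∑ a, (cls col a).card = Fintype.card V := by
  unfold cls
  rw [← Finset.card_univ]
  exact (Finset.card_eq_sum_card_fiberwise (fun v _ => mem_univ (col v))).symm

lemma sum_cls_T (col : V → C) (T : Finset C) : ∑ a ∈ T, (cls col a).card ≤ Fintype.card V := by
  rw [← sum_cls col]
  exact Finset.sum_le_sum_of_subset (Finset.subset_univ T)

/-- removal of smallest classes -/
lemma removal (P : Sys V J) (p : ℕ) (h0 : Deg P.p0 p) (h1 : Deg P.p1 p) (h2 : Deg P.p2 p)
    (col : V → C) (t s M : ℕ) (ht : 0 < t) (hn : Fintype.card V = s * t)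
    (hT : ∀ T : Finset C, T.card ≤ t → 2 * P.cap (VT col T) < M) :
    ∀ j : ℕ, ∀ T : Finset C, T.card ≤ t + j → 2 * P.cap (VT col T) < M + j * (2 * (3 * p * s)) := by
  intro j
  induction j with
  | zero =>
    intro T h
    have := hT T (by simpa using h)
    simpa using this
  | succ j ih =>
    intro T h
    by_cases hle : T.card ≤ t + j
    · have := ih T hle
      nlinarith
    · push Not at hle
      have hne : T.Nonempty := by
        rw [← Finset.card_pos]; omega
      obtain ⟨a, ha, hmin⟩ := Finset.exists_min_image T (fun a => (cls col a).card) hne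
      have e1 : T.card * (cls col a).card ≤ Fintype.card V := by
        calc T.card * (cls col a).card = ∑ _b ∈ T, (cls col a).card := by
              rw [Finset.sum_const, smul_eq_mul]
          _ ≤ ∑ b ∈ T, (cls col b).card := Finset.sum_le_sum hmin
          _ ≤ _ := sum_cls_T col T
      have e2 : (cls col a).card ≤ s := by
        have : t * (cls col a).card ≤ t * s := by
          calc t * (cls col a).card ≤ T.card * (cls col a).card :=
                Nat.mul_le_mul_right _ (by omega)
            _ ≤ Fintype.card V := e1
            _ = t * s := by rw [hn, mul_comm]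
        exact Nat.le_of_mul_le_mul_left this ht
      have e3 : VT col T = VT col (T.erase a) ∪ cls col a := by
        ext v
        simp only [VT, cls, mem_union, mem_filter, mem_univ, true_and, mem_erase]
        constructor
        · intro hv
          by_cases hva : col v = a
          · exact Or.inr hva
          · exact Or.inl ⟨hva, hv⟩
        · rintro (h | h)
          · exact h.2
          · rw [h]; exact ha
      have e4 := cap_remove P p h0 h1 h2 (VT col (T.erase a)) (cls col a)
      rw [← e3] at e4
      have e5 := ih (T.erase a) (by rw [Finset.card_erase_of_mem ha]; omega)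
      have e6 : 3 * p * (cls col a).card ≤ 3 * p * s := Nat.mul_le_mul_left _ e2
      have e7 : (j + 1) * (2 * (3 * p * s)) = j * (2 * (3 * p * s)) + 2 * (3 * p * s) := by ring
      rw [e7]
      omega

end Pool.Agent.LibStrong
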