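import Mathlib
import Pool.Agent.LibStrong.Main

set_option autoImplicit false
set_option linter.unusedSectionVars false

namespace Pool.Agent.LibStrong

open Finset

variable {V J C : Type} [Fintype V] [DecidableEq V] [Fintype J] [DecidableEq J]
  [Fintype C] [DecidableEq C]

lemma sign_bound (P : Sys V J) (p : ℕ) (h0 : Deg P.p0 p) (h1 : Deg P.p1 p) (h2 : Deg P.p2 p)
    (col : V → C) (t s : ℕ) (ht : 0 < t) (hn : Fintype.card V = s * t)
    (hC : Fintype.card C = 2 * t + 1)
    (hT : ∀ T : Finset C, T.card ≤ t → 2 * P.cap (VT col T) < Fintype.card J + 3 * p * t)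
    (L : ℝ) (hL : 0 < L) (x : C → ℝ) (hx : ∀ a, x a = 1 ∨ x a = -1) :
    Psi (Sr (cc P.p0 col) (cc P.p1 col) (cc P.p2 col)) (lc (cc P.p0 col) (cc P.p1 col) (cc P.p2 col)) x
      - ((3 * p * s : ℝ) / (2 * L)) * (∑ a, x a) ^ 2
      ≤ 3 * p * t + 3 * p * s + (3 * p * s) * L / 2 := by
  rw [Psi_sign P col x hx, sum_sign x hx, hC]
  set T := univ.filter (fun a => x a = 1) with hTd
  set μ : ℝ := 3 * p * s with hμ
  have hμ0 : 0 ≤ μ := by positivity
  have hrem := removal P p h0 h1 h2 col t s (Fintype.card J + 3 * p * t) ht hn hT (T.card - t) T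
    (by omega)
  have hrem' : 2 * (P.cap (VT col T) : ℝ) < Fintype.card J + 3 * p * t
      + ((T.card - t : ℕ) : ℝ) * (2 * μ) := by
    have : ((2 * P.cap (VT col T) : ℕ) : ℝ) < ((Fintype.card J + 3 * p * t
      + (T.card - t) * (2 * (3 * p * s)) : ℕ) : ℝ) := by exact_mod_cast hrem
    push_cast at this
    rw [hμ]
    linarith
  rcases le_or_gt T.card t with hle | hgt
  · have hz : T.card - t = 0 := by omega
    rw [hz] at hrem'
    have q1 : 0 ≤ μ / (2 * L) * (2 * (T.card : ℝ) - ((2 * t + 1 : ℕ) : ℝ)) ^ 2 := by positivity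
    have q2 : 0 ≤ μ * L / 2 := by positivity
    simp only [Nat.cast_zero, zero_mul, add_zero] at hrem'
    linarith
  · have hj : ((T.card - t : ℕ) : ℝ) = (T.card : ℝ) - t := by
      rw [Nat.cast_sub hgt.le]
    rw [hj] at hrem'
    push_cast
    set S : ℝ := 2 * (T.card : ℝ) - (2 * t + 1) with hS
    have e1 : μ / (2 * L) * S ^ 2 - μ * S + μ * L / 2 = μ / (2 * L) * (S - L) ^ 2 := by
      field_simp
      ring
    have e2 : 0 ≤ μ / (2 * L) * (S - L) ^ 2 := by positivity
    have e3 : ((T.card : ℝ) - t) * (2 * μ) = μ * S + μ := by rw [hS]; ring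
    rw [e3] at hrem'
    linarith

/-- bound for the capture number of moderately sized colours -/
lemma cap_medium (P : Sys V J) (p : ℕ) (h1 : Deg P.p1 p) (h2 : Deg P.p2 p)
    (g01 : Good P.p0 P.p1) (g02 : Good P.p0 P.p2) (g12 : Good P.p1 P.p2) (X : Finset V)
    (hp : 10 ^ 15 ≤ p) (hX : P.cap X ≤ 9 * 10 ^ 10 * p ^ 2) :
    4 * P.cap X ≤ p * X.card := by
  by_cases h : 144 * (p + X.card) ≤ p ^ 2
  · exact cap_small P p h1 h2 g01 g02 g12 X h
  · push Not at h
    have e1 : p ^ 2 ≤ 288 * X.card := by nlinarith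
    have e2 : 288 * (4 * P.cap X) ≤ 288 * (p * X.card) := by
      calc 288 * (4 * P.cap X) ≤ 288 * (4 * (9 * 10 ^ 10 * p ^ 2)) := by omega
        _ = (288 * 36 * 10 ^ 10) * p ^ 2 := by ring
        _ ≤ p * p ^ 2 := Nat.mul_le_mul_right _ (le_trans (by norm_num) hp)
        _ ≤ p * (288 * X.card) := Nat.mul_le_mul_left _ e1
        _ = 288 * (p * X.card) := by ring
    omega

end Pool.Agent.LibStrong
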