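import Mathlib
import Pool.Agent.LibStrong.Main2

set_option autoImplicit false
set_option linter.unusedSectionVars false

namespace Pool.Agent.LibStrong

open Finset

variable {V J C : Type} [Fintype V] [DecidableEq V] [Fintype J] [DecidableEq J]
  [Fintype C] [DecidableEq C]

lemma restricted (S : C → C → C → ℝ) (h1 : ∀ a b c, S a b c = S b a c)
    (h2 : ∀ a b c, S a b c = S a c b) (h0 : ∀ a b c, 0 ≤ S a b c) (A : Finset C) :
    ∑ a, ∑ b, ∑ c, S a b c - 3 * ∑ a ∈ Aᶜ, ∑ b, ∑ c, S a b c
      ≤ ∑ a, ∑ b, ∑ c, S a b c * ind A a * ind A b * ind A c := by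
  have e1 : ∑ a ∈ Aᶜ, ∑ b, ∑ c, S a b c = ∑ a, ∑ b, ∑ c, S a b c * (1 - ind A a) := by
    rw [← Finset.sum_filter_add_sum_filter_not univ (fun a => a ∈ A)
      (fun a => ∑ b, ∑ c, S a b c * (1 - ind A a))]
    have z1 : ∑ a ∈ univ.filter (fun a => a ∈ A), ∑ b, ∑ c, S a b c * (1 - ind A a) = 0 := by
      apply Finset.sum_eq_zero
      intro a ha
      apply Finset.sum_eq_zero
      intro b _
      apply Finset.sum_eq_zero
      intro c _
      have : a ∈ A := (mem_filter.1 ha).2
      simp [ind, this]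
    rw [z1, zero_add]
    have z2 : univ.filter (fun a => ¬ a ∈ A) = Aᶜ := by
      ext a; simp
    rw [z2]
    refine Finset.sum_congr rfl (fun a ha => ?_)
    refine Finset.sum_congr rfl (fun b _ => ?_)
    refine Finset.sum_congr rfl (fun c _ => ?_)
    have : a ∉ A := by simpa using ha
    simp [ind, this]
  have e2 : ∑ a, ∑ b, ∑ c, S a b c * (1 - ind A b) = ∑ a, ∑ b, ∑ c, S a b c * (1 - ind A a) := by
    rw [sum3_swap12]
    refine Finset.sum_congr rfl (fun a _ => ?_)
    refine Finset.sum_congr rfl (fun b _ => ?_)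
    refine Finset.sum_congr rfl (fun c _ => ?_)
    rw [h1]
  have e3 : ∑ a, ∑ b, ∑ c, S a b c * (1 - ind A c) = ∑ a, ∑ b, ∑ c, S a b c * (1 - ind A b) := by
    rw [sum3_swap23]
    refine Finset.sum_congr rfl (fun a _ => ?_)
    refine Finset.sum_congr rfl (fun b _ => ?_)
    refine Finset.sum_congr rfl (fun c _ => ?_)
    rw [h2]
  have hp : ∀ a b c, S a b c - (S a b c * (1 - ind A a) + S a b c * (1 - ind A b)
      + S a b c * (1 - ind A c)) ≤ S a b c * ind A a * ind A b * ind A c := by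
    intro a b c
    have hS := h0 a b c
    have : 1 - ((1 - ind A a) + (1 - ind A b) + (1 - ind A c)) ≤ ind A a * ind A b * ind A c := by
      unfold ind
      split_ifs <;> norm_num
    nlinarith
  have hs := Finset.sum_le_sum (fun a (_ : a ∈ (univ : Finset C)) =>
    Finset.sum_le_sum (fun b (_ : b ∈ (univ : Finset C)) =>
      Finset.sum_le_sum (fun c (_ : c ∈ (univ : Finset C)) => hp a b c)))
  simp only [sum_sub_distrib, sum_add_distrib] at hs
  rw [e3, e2, ← e1] at hs
  linarith

/-- bound used for the bilinear forms -/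
lemma bound_M (S : C → C → C → ℝ) (h1 : ∀ a b c, S a b c = S b a c)
    (h0 : ∀ a b c, 0 ≤ S a b c) (A : Finset C) (D : ℝ) (hD0 : 0 ≤ D)
    (hD : ∀ b ∈ A, ∑ a, ∑ c, S b a c ≤ D) :
    ∑ c, ∑ b, ((∑ a, S a b c) * ind A b * ind A c) ^ 2 ≤ D * ∑ a, ∑ b, ∑ c, S a b c := by
  have e : ∀ b c, ((∑ a, S a b c) * ind A b * ind A c) ^ 2 ≤ D * ∑ a, S a b c := by
    intro b c
    have hs : 0 ≤ ∑ a, S a b c := Finset.sum_nonneg (fun a _ => h0 a b c)
    by_cases hb : b ∈ A
    · have hD' := hD b hb
      have e2 : ∑ a, S a b c ≤ D := by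
        refine le_trans ?_ hD'
        refine Finset.sum_le_sum (fun a _ => ?_)
        rw [h1]
        exact Finset.single_le_sum (f := fun c => S b a c) (fun c _ => h0 b a c) (mem_univ c)
      calc ((∑ a, S a b c) * ind A b * ind A c) ^ 2
          = (∑ a, S a b c) ^ 2 * (ind A b ^ 2 * ind A c ^ 2) := by ring
        _ ≤ (∑ a, S a b c) ^ 2 * 1 := by
            apply mul_le_mul_of_nonneg_left _ (sq_nonneg _)
            rw [ind_sq, ind_sq]
            exact mul_le_one₀ (ind_le_one A b) (ind_nonneg A c) (ind_le_one A c)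
        _ = (∑ a, S a b c) * (∑ a, S a b c) := by ring
        _ ≤ D * (∑ a, S a b c) := mul_le_mul_of_nonneg_right e2 hs
    · have : ind A b = 0 := by simp [ind, hb]
      rw [this]
      simp only [mul_zero, zero_mul, ne_eq, OfNat.ofNat_ne_zero, not_false_eq_true, zero_pow]
      exact mul_nonneg hD0 hs
  have hs := Finset.sum_le_sum (fun c (_ : c ∈ (univ : Finset C)) =>
    Finset.sum_le_sum (fun b (_ : b ∈ (univ : Finset C)) => e b c))
  refine hs.trans (le_of_eq ?_)
  simp only [← mul_sum]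
  congr 1
  -- reorder the triple sum
  calc ∑ c, ∑ b, ∑ a, S a b c = ∑ c, ∑ a, ∑ b, S a b c :=
        Finset.sum_congr rfl (fun c _ => Finset.sum_comm)
    _ = ∑ a, ∑ c, ∑ b, S a b c := Finset.sum_comm
    _ = ∑ a, ∑ b, ∑ c, S a b c := Finset.sum_congr rfl (fun a _ => Finset.sum_comm)

/-- lower bound for the square root of a restricted row sum -/
lemma sqrt_lower (S : C → C → C → ℝ) (h0 : ∀ a b c, 0 ≤ S a b c)
    (hsq : ∀ a b c, S a b c ≤ S a b c ^ 2) (A : Finset C) (a : C) (E : ℝ) (hE : 0 < E)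
    (hD : ∑ b, ∑ c, S a b c ≤ E ^ 2) :
    (∑ b, ∑ c, S a b c * ind A b * ind A c) / E
      ≤ Real.sqrt (∑ c, ∑ b, (S a b c * ind A b * ind A c) ^ 2) := by
  set W := ∑ b, ∑ c, S a b c * ind A b * ind A c with hW
  have hW0 : 0 ≤ W := Finset.sum_nonneg (fun b _ => Finset.sum_nonneg (fun c _ =>
    mul_nonneg (mul_nonneg (h0 a b c) (ind_nonneg A b)) (ind_nonneg A c)))
  have hWE : W ≤ E ^ 2 := by
    refine le_trans ?_ hD
    refine Finset.sum_le_sum (fun b _ => Finset.sum_le_sum (fun c _ => ?_))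
    have := h0 a b c
    calc S a b c * ind A b * ind A c ≤ S a b c * 1 * 1 := by
          apply mul_le_mul _ (ind_le_one A c) (ind_nonneg A c) (by linarith)
          exact mul_le_mul_of_nonneg_left (ind_le_one A b) this
      _ = S a b c := by ring
  have hWs : W ≤ ∑ c, ∑ b, (S a b c * ind A b * ind A c) ^ 2 := by
    rw [Finset.sum_comm]
    refine Finset.sum_le_sum (fun b _ => Finset.sum_le_sum (fun c _ => ?_))
    calc S a b c * ind A b * ind A c ≤ S a b c ^ 2 * ind A b * ind A c := by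
          apply mul_le_mul_of_nonneg_right _ (ind_nonneg A c)
          exact mul_le_mul_of_nonneg_right (hsq a b c) (ind_nonneg A b)
      _ = (S a b c * ind A b * ind A c) ^ 2 := by
          have e1 := ind_sq A b
          have e2 := ind_sq A c
          calc S a b c ^ 2 * ind A b * ind A c = S a b c ^ 2 * ind A b ^ 2 * ind A c ^ 2 := by
                rw [e1, e2]
            _ = _ := by ring
  apply Real.le_sqrt_of_sq_le
  refine le_trans ?_ hWs
  rw [div_pow, div_le_iff₀ (by positivity), sq]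
  exact mul_le_mul_of_nonneg_left hWE hW0

end Pool.Agent.LibStrong
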