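import Mathlib
import Pool.Agent.LibStrong.Main3

set_option autoImplicit false
set_option linter.unusedSectionVars false

namespace Pool.Agent.LibStrong

open Finset

variable {V J C : Type} [Fintype V] [DecidableEq V] [Fintype J] [DecidableEq J]
  [Fintype C] [DecidableEq C]

lemma num_big (N q R W T : ℝ) (hN : N = 3 * 10 ^ 40 * q ^ 4) (q34 : (10:ℝ) ^ 15 * q ^ 3 ≤ q ^ 4)
    (q3 : 0 < q ^ 3)
    (h1 : 3 / 4 * N - 50 * 10 ^ 30 * q ^ 3 ≤ R) (h2 : W ≤ 200 * 10 ^ 30 * q ^ 3)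
    (h3 : 6 * R - 3 * W ≤ T) : 3 * N ≤ T := by
  subst hN
  linarith

lemma num_fin (q X Y : ℝ) (q3 : 0 < q ^ 3) (q23 : (10:ℝ) ^ 15 * q ^ 2 ≤ q ^ 3)
    (hY : Y ≤ 5 * 10 ^ 25 * q ^ 3)
    (h1 : (3 / 8) * 10 ^ 35 * q ^ 3 ≤ X)
    (h2 : X ≤ 384 * (3 * 10 ^ 30 * q ^ 3 + 9 * 10 ^ 10 * q ^ 2 + 9 * 10 ^ 25 * q ^ 3) + 1584 * Y
      + 26 * 10 ^ 25 * q ^ 3) : False := by
  linarith

lemma num_lin (q X Y : ℝ) (q3 : 0 < q ^ 3) (q23 : (10:ℝ) ^ 15 * q ^ 2 ≤ q ^ 3)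
    (hY : Y ≤ 5 * 10 ^ 25 * q ^ 3)
    (h2 : X ≤ 12 * (3 * 10 ^ 30 * q ^ 3 + 9 * 10 ^ 10 * q ^ 2 + 9 * 10 ^ 25 * q ^ 3 + 4 * Y)) :
    X ≤ 36.1 * 10 ^ 30 * q ^ 3 := by
  norm_num at *
  linarith

lemma num_mean (N R K q : ℝ) (hN : N = 3 * 10 ^ 40 * q ^ 4) (hR : R ≤ N)
    (hK : K = 2 * 10 ^ 30 * q ^ 2 + 1) : N + 1 / 2 * R ≤ 2.25 * 10 ^ 10 * q ^ 2 * K := by
  subst hK
  have : 2.25 * 10 ^ 10 * q ^ 2 * (2 * 10 ^ 30 * q ^ 2 + 1)
      = 3 / 2 * (3 * 10 ^ 40 * q ^ 4) + 2.25 * 10 ^ 10 * q ^ 2 := by ring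
  rw [this]
  have h2 : 0 ≤ q ^ 2 := sq_nonneg q
  norm_num at *
  linarith

lemma num_bk (q : ℝ) (q13 : q ≤ q ^ 3) (q3 : 0 < q ^ 3) :
    (9 / 4) / 10 ^ 5 * q * (2 * 10 ^ 30 * q ^ 2 + 1) ≤ 5 * 10 ^ 25 * q ^ 3 := by
  have : (9 / 4) / 10 ^ 5 * q * (2 * 10 ^ 30 * q ^ 2 + 1)
      = 4.5 * 10 ^ 25 * q ^ 3 + (9 / 4) / 10 ^ 5 * q := by ring
  rw [this]
  norm_num at *
  linarith

theorem main_dev (P : Sys V J) (p : ℕ) (hp : 10 ^ 15 ≤ p)
    (h0 : Deg P.p0 p) (h1 : Deg P.p1 p) (h2 : Deg P.p2 p)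
    (g01 : Good P.p0 P.p1) (g02 : Good P.p0 P.p2) (g12 : Good P.p1 P.p2)
    (hV : Fintype.card V = (3 * 10 ^ 10 * p) * (10 ^ 30 * p ^ 2))
    (hJ : Fintype.card J = p * Fintype.card V)
    (hC : Fintype.card C = 2 * (10 ^ 30 * p ^ 2) + 1)
    (col : V → C) : ∃ T : Finset C, T.card ≤ 10 ^ 30 * p ^ 2 ∧
      Fintype.card J + 3 * p * (10 ^ 30 * p ^ 2) ≤ 2 * P.cap (VT col T) := by
  by_contra hcon
  push Not at hcon
  have hne : Nonempty C := Fintype.card_pos_iff.1 (by rw [hC]; omega)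
  set c0 := cc P.p0 col with hc0
  set c1 := cc P.p1 col with hc1
  set c2 := cc P.p2 col with hc2
  set S := Sr c0 c1 c2 with hS
  set l := lc c0 c1 c2 with hl
  set q : ℝ := (p : ℝ) with hq
  have hq15 : (10:ℝ) ^ 15 ≤ q := by rw [hq]; exact_mod_cast hp
  have hq0 : 0 < q := lt_of_lt_of_le (by norm_num) hq15
  have q2 : 0 < q ^ 2 := by positivity
  have q3 : 0 < q ^ 3 := by positivity
  have q4 : 0 < q ^ 4 := by positivity
  have q23 : (10:ℝ) ^ 15 * q ^ 2 ≤ q ^ 3 := by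
    calc (10:ℝ) ^ 15 * q ^ 2 ≤ q * q ^ 2 := mul_le_mul_of_nonneg_right hq15 q2.le
      _ = q ^ 3 := by ring
  have q34 : (10:ℝ) ^ 15 * q ^ 3 ≤ q ^ 4 := by
    calc (10:ℝ) ^ 15 * q ^ 3 ≤ q * q ^ 3 := mul_le_mul_of_nonneg_right hq15 q3.le
      _ = q ^ 4 := by ring
  have q13 : q ≤ q ^ 3 := by nlinarith
  -- parameters
  set L : ℝ := 2 * 10 ^ 15 * q with hL
  have hLpos : 0 < L := by positivity
  set β : ℝ := (3 * q * ((3 * 10 ^ 10 * p : ℕ) : ℝ)) / (2 * L) with hβ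
  have hβ0 : 0 ≤ β := by positivity
  have hβv : β = (9 / 4) / 10 ^ 5 * q := by
    rw [hβ, hL]
    push_cast
    rw [← hq]
    field_simp
    ring
  set B : ℝ := 3 * q * ((10 ^ 30 * p ^ 2 : ℕ) : ℝ) + 3 * q * ((3 * 10 ^ 10 * p : ℕ) : ℝ)
      + (3 * q * ((3 * 10 ^ 10 * p : ℕ) : ℝ)) * L / 2 with hBdef
  have hBv : B = 3 * 10 ^ 30 * q ^ 3 + 9 * 10 ^ 10 * q ^ 2 + 9 * 10 ^ 25 * q ^ 3 := by
    rw [hBdef, hL]
    push_cast
    rw [← hq]
    ring
  have hB : ∀ x : C → ℝ, (∀ a, x a = 1 ∨ x a = -1) → Psi S l x - β * (∑ a, x a) ^ 2 ≤ B := by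
    intro x hx
    exact sign_bound P p h0 h1 h2 col (10 ^ 30 * p ^ 2) (3 * 10 ^ 10 * p) (by positivity) hV hC
      hcon L hLpos x hx
  have hs1 : ∀ a b c, S a b c = S b a c := Sr_sym1 c0 c1 c2
  have hs2 : ∀ a b c, S a b c = S a c b := Sr_sym2 c0 c1 c2
  have hsd : ∀ a c, S a a c = 0 := Sr_diag c0 c1 c2
  have hs0 : ∀ a b c, 0 ≤ S a b c := Sr_nonneg c0 c1 c2
  have hssq : ∀ a b c, S a b c ≤ S a b c ^ 2 := Sr_le_sq c0 c1 c2
  set K : ℝ := (Fintype.card C : ℝ) with hK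
  have hKv : K = 2 * 10 ^ 30 * q ^ 2 + 1 := by
    rw [hK, hC]
    push_cast
    rw [← hq]
    ring
  set N : ℝ := (Fintype.card J : ℝ) with hN
  have hNv : N = 3 * 10 ^ 40 * q ^ 4 := by
    rw [hN, hJ, hV]
    push_cast
    rw [← hq]
    ring
  have hβK : β * K ≤ 5 * 10 ^ 25 * q ^ 3 := by
    rw [hβv, hKv]
    exact num_bk q q13 q3
  have hβK0 : 0 ≤ β * K := mul_nonneg hβ0 (by rw [hKv]; positivity)
  -- linear part
  have hlin : ∑ a, |l a - mean l| ≤ 36.1 * 10 ^ 30 * q ^ 3 := by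
    have h := grad_dev S hs1 hs2 hsd l β B hβ0 hB (fun _ => 0) (by intro a; simp)
    have e : GG S l (fun _ => 0) = l := by
      funext a
      simp [GG, TT]
    rw [e] at h
    refine h.trans ?_
    simp only [sum_const_zero, ne_eq, OfNat.ofNat_ne_zero, not_false_eq_true, zero_pow, mul_zero,
      add_zero]
    have : 4 * β * K = 4 * (β * K) := by ring
    rw [this, hBv]
    exact num_lin q _ (β * K) q3 q23 hβK le_rfl
  have hRb : ((Rb c0 c1 c2).card : ℝ) ≤ N := by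
    rw [hN]; exact_mod_cast Rb_card_le c0 c1 c2
  have hmean : mean l ≤ 2.25 * 10 ^ 10 * q ^ 2 := by
    unfold mean
    rw [hl, sum_lc, ← hN, ← hK, div_le_iff₀ (by rw [hKv]; positivity)]
    exact num_mean N _ K q hNv hRb hKv
  -- giants
  set Gi : Finset C := univ.filter (fun a => 9 * 10 ^ 10 * q ^ 2 < l a) with hGi
  have hgi : ∑ a ∈ Gi, l a ≤ 50 * 10 ^ 30 * q ^ 3 := by
    have e1 : ∀ a ∈ Gi, 3 / 4 * l a ≤ |l a - mean l| := by
      intro a ha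
      have h := (mem_filter.1 ha).2
      refine le_trans ?_ (le_abs_self _)
      linarith
    have e2 : ∑ a ∈ Gi, 3 / 4 * l a ≤ ∑ a, |l a - mean l| :=
      (Finset.sum_le_sum e1).trans
        (Finset.sum_le_sum_of_subset_of_nonneg (Finset.subset_univ _) (fun _ _ _ => abs_nonneg _))
    rw [← mul_sum] at e2
    nlinarith [e2, hlin, q3]
  set A : Finset C := Giᶜ with hA
  have hAl : ∀ a ∈ A, l a ≤ 9 * 10 ^ 10 * q ^ 2 := by
    intro a ha
    have : a ∉ Gi := by simpa [hA] using ha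
    by_contra hcc
    push Not at hcc
    exact this (by simp [hGi, hcc])
  have hlpos : ∀ a, (capc c0 c1 c2 a : ℝ) ≤ l a := by
    intro a
    have e : 0 ≤ ∑ b, ∑ c, S a b c :=
      Finset.sum_nonneg (fun b _ => Finset.sum_nonneg (fun c _ => hs0 a b c))
    have : l a = capc c0 c1 c2 a + (1/4) * ∑ b, ∑ c, S a b c := rfl
    rw [this]
    linarith
  have hD : ∀ a, ∑ b, ∑ c, S a b c ≤ 4 * l a := by
    intro a
    have : l a = capc c0 c1 c2 a + (1/4) * ∑ b, ∑ c, S a b c := rfl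
    have h3 : (0:ℝ) ≤ capc c0 c1 c2 a := by positivity
    rw [this]
    linarith
  -- captured triples in medium classes
  have hcapA : ∑ a ∈ A, (capc c0 c1 c2 a : ℝ) ≤ N / 4 := by
    have e1 : ∀ a ∈ A, 4 * (capc c0 c1 c2 a : ℝ) ≤ q * (cls col a).card := by
      intro a ha
      have hcl : (capc c0 c1 c2 a : ℝ) ≤ 9 * 10 ^ 10 * q ^ 2 := (hlpos a).trans (hAl a ha)
      have hce := capc_eq P col a
      have hcl' : (P.cap (cls col a) : ℝ) ≤ 9 * 10 ^ 10 * q ^ 2 := by rw [← hce]; exact hcl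
      have hnat : P.cap (cls col a) ≤ 9 * 10 ^ 10 * p ^ 2 := by
        have : ((P.cap (cls col a) : ℕ) : ℝ) ≤ ((9 * 10 ^ 10 * p ^ 2 : ℕ) : ℝ) := by
          refine hcl'.trans (le_of_eq ?_)
          rw [hq]
          push_cast
          ring
        exact_mod_cast this
      have h3 := cap_medium P p h1 h2 g01 g02 g12 (cls col a) hp hnat
      have h4 : ((4 * P.cap (cls col a) : ℕ) : ℝ) ≤ ((p * (cls col a).card : ℕ) : ℝ) :=
        Nat.cast_le.2 h3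
      rw [Nat.cast_mul, Nat.cast_mul, ← hce] at h4
      exact h4
    have e2 := Finset.sum_le_sum e1
    rw [← mul_sum, ← mul_sum] at e2
    have e3 : ∑ a ∈ A, ((cls col a).card : ℝ) ≤ Fintype.card V := by
      have := sum_cls_T col A
      exact_mod_cast this
    have e4 : q * (Fintype.card V : ℝ) = N := by
      rw [hN, hJ, Nat.cast_mul]
    have e5 := mul_le_mul_of_nonneg_left e3 hq0.le
    rw [e4] at e5
    linarith
  have hRblow : 3 / 4 * N - 50 * 10 ^ 30 * q ^ 3 ≤ ((Rb c0 c1 c2).card : ℝ) := by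
    have e := sum_capc c0 c1 c2
    have e2 : ∑ a, (capc c0 c1 c2 a : ℝ) = ∑ a ∈ Gi, (capc c0 c1 c2 a : ℝ)
        + ∑ a ∈ A, (capc c0 c1 c2 a : ℝ) := by
      rw [hA, Finset.sum_add_sum_compl]
    have e3 : ∑ a ∈ Gi, (capc c0 c1 c2 a : ℝ) ≤ ∑ a ∈ Gi, l a :=
      Finset.sum_le_sum (fun a _ => hlpos a)
    rw [← hN] at e
    linarith
  -- restricted sums
  have hres := restricted S hs1 hs2 hs0 A
  have hAc : Aᶜ = Gi := by rw [hA, compl_compl]
  have hrow : ∑ a ∈ Aᶜ, ∑ b, ∑ c, S a b c ≤ 200 * 10 ^ 30 * q ^ 3 := by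
    rw [hAc]
    have : ∑ a ∈ Gi, ∑ b, ∑ c, S a b c ≤ ∑ a ∈ Gi, 4 * l a :=
      Finset.sum_le_sum (fun a _ => hD a)
    rw [← mul_sum] at this
    linarith
  have hall : ∑ a, ∑ b, ∑ c, S a b c = 6 * ((Rb c0 c1 c2).card : ℝ) := sum_Sr_all c0 c1 c2
  have hbig : 3 * N ≤ ∑ a, ∑ b, ∑ c, S a b c * ind A a * ind A b * ind A c := by
    rw [hall] at hres
    exact num_big N q _ _ _ hNv q34 q3 hRblow hrow hres
  -- chaos
  set M : ℝ := 26 * 10 ^ 25 * q ^ 3 with hM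
  have hW : ∑ c, ∑ b, ((∑ a, S a b c) * ind A b * ind A c) ^ 2 ≤ M ^ 2 := by
    have h := bound_M S hs1 hs0 A (36 * 10 ^ 10 * q ^ 2) (by positivity) (by
      intro b hb
      have e1 := hD b
      have e2 := hAl b hb
      linarith)
    refine h.trans ?_
    rw [hall]
    calc 36 * 10 ^ 10 * q ^ 2 * (6 * ((Rb c0 c1 c2).card : ℝ))
        ≤ 36 * 10 ^ 10 * q ^ 2 * (6 * N) := by
          apply mul_le_mul_of_nonneg_left _ (by positivity)
          linarith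
      _ = 648 * 10 ^ 50 * q ^ 6 := by rw [hNv]; ring
      _ ≤ M ^ 2 := by
          rw [hM]
          have : (26 * 10 ^ 25 * q ^ 3 : ℝ) ^ 2 = 676 * 10 ^ 50 * q ^ 6 := by ring
          rw [this]
          nlinarith [pow_pos hq0 6]
  have hch := chaos S hs1 hs2 hsd l β B hβ0 hB A M (by positivity) hW
  -- lower bound
  have hlow : (3 / 8) * 10 ^ 35 * q ^ 3
      ≤ ∑ a, Real.sqrt (∑ c, ∑ b, (S a b c * ind A b * ind A c) ^ 2) / 4 := by
    have e1 : ∀ a, (∑ b, ∑ c, S a b c * ind A a * ind A b * ind A c) / (6 * 10 ^ 5 * q) / 4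
        ≤ Real.sqrt (∑ c, ∑ b, (S a b c * ind A b * ind A c) ^ 2) / 4 := by
      intro a
      apply div_le_div_of_nonneg_right _ (by norm_num)
      by_cases ha : a ∈ A
      · have hia : ind A a = 1 := by simp [ind, ha]
        have h5 := sqrt_lower S hs0 hssq A a (6 * 10 ^ 5 * q) (by positivity) (by
          have e1 := hD a
          have e2 := hAl a ha
          have e3 : (6 * 10 ^ 5 * q) ^ 2 = 36 * 10 ^ 10 * q ^ 2 := by ring
          rw [e3]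
          linarith)
        simp only [hia, mul_one]
        exact h5
      · have hia : ind A a = 0 := by simp [ind, ha]
        simp only [hia, mul_zero, zero_mul, sum_const_zero, zero_div]
        exact Real.sqrt_nonneg _
    have e2 := Finset.sum_le_sum (fun a (_ : a ∈ (univ : Finset C)) => e1 a)
    rw [← Finset.sum_div, ← Finset.sum_div] at e2
    refine le_trans ?_ e2
    rw [le_div_iff₀ (by norm_num), le_div_iff₀ (by positivity)]
    refine le_trans (le_of_eq ?_) hbig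
    rw [hNv]
    ring
  have h1584 : 1584 * β * K = 1584 * (β * K) := by ring
  rw [h1584, hBv, hM] at hch
  exact num_fin q _ _ q3 q23 hβK hlow hch

end Pool.Agent.LibStrong
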