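import Mathlib
import Pool.Agent.LibStrong.Main4

set_option autoImplicit false
set_option linter.unusedSectionVars false

namespace Pool.Agent.LibStrong

open Finset

section conc

variable (p m : ℕ) [hpf : Fact p.Prime]

/-- the point set -/
abbrev PV (p m : ℕ) : Type := Fin m × (ZMod p × ZMod p)

/-- position map -/
def pm (h : ZMod p) (τ : PV p m × ZMod p) : PV p m :=
  (τ.1.1, (τ.1.2.1 + h * τ.2, τ.1.2.2 + h * τ.2 ^ 2))

/-- the concrete system -/
def conc : Sys (PV p m) (PV p m × ZMod p) where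
  p0 := pm p m 0
  p1 := pm p m 1
  p2 := pm p m (-1)

lemma pm_deg (h : ZMod p) : Deg (pm p m h) p := by
  intro v
  have : (univ.filter (fun τ => pm p m h τ = v)).card ≤ (univ : Finset (ZMod p)).card := by
    apply Finset.card_le_card_of_injOn (fun τ => τ.2)
    · intro τ _
      exact Finset.mem_coe.2 (mem_univ _)
    · intro τ hτ τ' hτ' heq
      have h1 : pm p m h τ = v := (mem_filter.1 hτ).2
      have h2 : pm p m h τ' = v := (mem_filter.1 hτ').2
      have h3 : pm p m h τ = pm p m h τ' := h1.trans h2.symm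
      obtain ⟨⟨a, x, y⟩, i⟩ := τ
      obtain ⟨⟨a', x', y'⟩, i'⟩ := τ'
      have heq' : i = i' := heq
      subst heq'
      simp only [pm, Prod.mk.injEq] at h3
      obtain ⟨h4, h5, h6⟩ := h3
      have h7 : x = x' := add_right_cancel h5
      have h8 : y = y' := add_right_cancel h6
      rw [h4, h7, h8]
  rwa [Finset.card_univ, ZMod.card] at this

lemma pm_good (hp2 : p ≠ 2) (h h' : ZMod p) (hne : h ≠ h') : Good (pm p m h) (pm p m h') := by
  intro τ τ' σ σ' hττ' h1 h2 h3 h4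
  obtain ⟨⟨a, x, y⟩, i⟩ := τ
  obtain ⟨⟨a', x', y'⟩, i'⟩ := τ'
  obtain ⟨⟨b, u, v⟩, j⟩ := σ
  obtain ⟨⟨b', u', v'⟩, j'⟩ := σ'
  simp only [pm, Prod.mk.injEq] at h1 h2 h3 h4
  obtain ⟨ea, e1, e2⟩ := h1
  obtain ⟨eb, e3, e4⟩ := h2
  obtain ⟨ec, e5, e6⟩ := h3
  obtain ⟨ed, e7, e8⟩ := h4
  have hd : h' - h ≠ 0 := sub_ne_zero.2 (Ne.symm hne)
  have f1 : (h' - h) * ((i - i') - (j - j')) = 0 := by linear_combination e5 - e7 - e1 + e3
  have f2 : (h' - h) * ((i ^ 2 - i' ^ 2) - (j ^ 2 - j' ^ 2)) = 0 := by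
    linear_combination e6 - e8 - e2 + e4
  have g1 : (i - i') = (j - j') := sub_eq_zero.1 ((mul_eq_zero.1 f1).resolve_left hd)
  have g2 : (i ^ 2 - i' ^ 2) = (j ^ 2 - j' ^ 2) := sub_eq_zero.1 ((mul_eq_zero.1 f2).resolve_left hd)
  have hii : i - i' ≠ 0 := by
    intro hz
    have hi : i = i' := sub_eq_zero.1 hz
    subst hi
    have k1 : x = x' := add_right_cancel e1
    have k2 : y = y' := add_right_cancel e2
    exact hττ' (by rw [ea, k1, k2])
  have g3 : (i - i') * ((i + i') - (j + j')) = 0 := by linear_combination g2 + (j + j') * (g1) * (-1)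
  have g4 : i + i' = j + j' := sub_eq_zero.1 ((mul_eq_zero.1 g3).resolve_left hii)
  have two_ne : (2 : ZMod p) ≠ 0 := by
    intro h0
    have : ((2 : ℕ) : ZMod p) = 0 := by exact_mod_cast h0
    rw [ZMod.natCast_eq_zero_iff] at this
    exact hp2 ((Nat.prime_dvd_prime_iff_eq hpf.out Nat.prime_two).1 this)
  have g5 : (2 : ZMod p) * (i - j) = 0 := by linear_combination g1 + g4
  have g6 : i = j := sub_eq_zero.1 ((mul_eq_zero.1 g5).resolve_left two_ne)
  subst g6
  have g7 : i' = j' := by linear_combination (-1 : ZMod p) * g1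
  subst g7
  have k1 : x = u := add_right_cancel e5
  have k2 : y = v := add_right_cancel e6
  have k3 : x' = u' := add_right_cancel e7
  have k4 : y' = v' := add_right_cancel e8
  refine ⟨?_, ?_⟩
  · rw [ec, k1, k2]
  · rw [ed, k3, k4]

end conc

/-- The counterexample. -/
theorem exists_bad : ∃ (t n : ℕ) (H : Finset (Finset (Fin n))), 1 ≤ t ∧
    (∀ e ∈ H, ∀ f ∈ H, t ≤ (e ∩ f).card) ∧
    (∀ e ∈ H, t < e.card) ∧
    ∀ col : Fin n → Fin (2 * t + 1), ∃ e ∈ H, (e.image col).card ≤ t := by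
  obtain ⟨p, hp15, hpp⟩ := Nat.exists_infinite_primes (10 ^ 15)
  have : Fact p.Prime := ⟨hpp⟩
  set m : ℕ := 3 * 10 ^ 40 * p with hm
  set t : ℕ := 10 ^ 30 * p ^ 2 with ht
  have hp0 : 0 < p := hpp.pos
  have hp2 : p ≠ 2 := by
    intro h; rw [h] at hp15; norm_num at hp15
  have hcardV : Fintype.card (PV p m) = (3 * 10 ^ 10 * p) * (10 ^ 30 * p ^ 2) := by
    simp only [PV, Fintype.card_prod, Fintype.card_fin, ZMod.card]
    rw [hm]
    ring
  have hcardJ : Fintype.card (PV p m × ZMod p) = p * Fintype.card (PV p m) := by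
    rw [Fintype.card_prod, ZMod.card, mul_comm]
  set P := conc p m with hP
  have d0 : Deg P.p0 p := pm_deg p m 0
  have d1 : Deg P.p1 p := pm_deg p m 1
  have d2 : Deg P.p2 p := pm_deg p m (-1)
  have two_ne : (2 : ZMod p) ≠ 0 := by
    intro h0
    have : ((2 : ℕ) : ZMod p) = 0 := by exact_mod_cast h0
    rw [ZMod.natCast_eq_zero_iff] at this
    exact hp2 ((Nat.prime_dvd_prime_iff_eq hpp Nat.prime_two).1 this)
  have g01 : Good P.p0 P.p1 := pm_good p m hp2 0 1 (zero_ne_one)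
  have g02 : Good P.p0 P.p2 := pm_good p m hp2 0 (-1) (by
    intro h
    have : (1 : ZMod p) = 0 := by linear_combination h
    exact one_ne_zero this)
  have g12 : Good P.p1 P.p2 := pm_good p m hp2 1 (-1) (by
    intro h
    exact two_ne (by linear_combination h))
  let n := Fintype.card (PV p m)
  let φ : PV p m ≃ Fin n := Fintype.equivFin (PV p m)
  let F : Finset (Finset (PV p m)) := univ.filter (fun X =>
    Fintype.card (PV p m × ZMod p) + 3 * p * t ≤ 2 * P.cap X)
  let H : Finset (Finset (Fin n)) := F.image (fun X => X.map φ.toEmbedding)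
  have hJpos : 0 < Fintype.card (PV p m × ZMod p) := by
    rw [hcardJ, hcardV]; positivity
  refine ⟨t, n, H, ?_, ?_, ?_, ?_⟩
  · have : 0 < t := by rw [ht]; positivity
    exact this
  · intro e he f hf
    obtain ⟨X, hX, rfl⟩ := Finset.mem_image.1 he
    obtain ⟨Y, hY, rfl⟩ := Finset.mem_image.1 hf
    have hX' := (mem_filter.1 hX).2
    have hY' := (mem_filter.1 hY).2
    have h := inter_card P p d0 d1 d2 X Y t hX' hY' hp0
    rw [← Finset.map_inter, Finset.card_map]
    exact h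
  · intro e he
    obtain ⟨X, hX, rfl⟩ := Finset.mem_image.1 he
    rw [Finset.card_map]
    exact size_gt P p d0 d1 d2 X t (mem_filter.1 hX).2 hJpos
  · intro col
    obtain ⟨T, hT1, hT2⟩ := main_dev P p hp15 d0 d1 d2 g01 g02 g12 hcardV hcardJ
      (C := Fin (2 * t + 1)) (by rw [Fintype.card_fin]) (fun v => col (φ v))
    refine ⟨(VT (fun v => col (φ v)) T).map φ.toEmbedding, ?_, ?_⟩
    · refine Finset.mem_image.2 ⟨_, ?_, rfl⟩
      exact mem_filter.2 ⟨mem_univ _, hT2⟩
    · refine le_trans (Finset.card_le_card ?_) hT1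
      intro c hc
      obtain ⟨w, hw, rfl⟩ := Finset.mem_image.1 hc
      obtain ⟨v, hv, rfl⟩ := Finset.mem_map.1 hw
      exact (mem_filter.1 hv).2

end Pool.Agent.LibStrong
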